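import Mathlib

set_option autoImplicit false

/-!
# Generalized dragon curves: the coordinate functions
-/

open Filter Topology Finset

namespace Pool.Agent.R266.Dr

/-- The directions: `b α k i` is the entry number `i + 1` of the sequence `b_k`. The entries number
`2 j + 1` and `2 j + 2` of `b_{k+1}` (indices `2 j`, `2 j + 1` counted from zero) are obtained from the
entry with index `j` of `b_k` by adding `α, -α` if `j` is even, and `-α, α` if `j` is odd. -/
noncomputable def b (α : ℝ) : ℕ → ℕ → ℝ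
  | 0, _ => 0
  | k + 1, i => b α k (i / 2) + if (i / 2 + i % 2) % 2 = 0 then α else -α

/-- the increments of the `x` coordinate -/
noncomputable def fc (α : ℝ) (k i : ℕ) : ℝ := Real.cos (b α k i) / (2 * Real.cos α) ^ k

/-- the increments of the `y` coordinate -/
noncomputable def gc (α : ℝ) (k i : ℕ) : ℝ := Real.sin (b α k i) / (2 * Real.cos α) ^ k

/-- The piecewise affine function on `[0,1]` which vanishes at `0` and grows by `c i` on the interval
`[i / M, (i + 1) / M]`, for `i < M`. -/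
noncomputable def pwl (M : ℕ) (c : ℕ → ℝ) (t : ℝ) : ℝ :=
  ∑ i ∈ range M, c i * min 1 (max 0 ((M : ℝ) * t - i))

/-- the coordinate functions of the polygonal stages -/
noncomputable def xk (α : ℝ) (k : ℕ) : ℝ → ℝ := pwl (2 ^ k) (fc α k)
noncomputable def yk (α : ℝ) (k : ℕ) : ℝ → ℝ := pwl (2 ^ k) (gc α k)

theorem pwl_eq (M : ℕ) (c : ℕ → ℝ) {t : ℝ} {i : ℕ} (hi : i < M) (h0 : (i : ℝ) ≤ M * t)
    (h1 : (M : ℝ) * t ≤ i + 1) :
    pwl M c t = ∑ i' ∈ range i, c i' + c i * (M * t - i) := by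
  unfold pwl
  obtain ⟨d, rfl⟩ := Nat.exists_eq_add_of_lt hi
  rw [show i + d + 1 = (i + 1) + d by ring, Finset.sum_range_add, Finset.sum_range_succ]
  have a1 : ∑ x ∈ range i, c x * min 1 (max 0 (((i + 1 + d : ℕ) : ℝ) * t - x))
      = ∑ x ∈ range i, c x := by
    apply Finset.sum_congr rfl
    intro x hx
    have hx' : (x : ℝ) + 1 ≤ i := by exact_mod_cast Finset.mem_range.1 hx
    have e : ((i + 1 + d : ℕ) : ℝ) = ((i + d + 1 : ℕ) : ℝ) := by push_cast; ring
    rw [e]
    rw [max_eq_right (by linarith), min_eq_left (by linarith), mul_one]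
  have a2 : ∑ x ∈ range d, c (i + 1 + x) *
      min 1 (max 0 (((i + 1 + d : ℕ) : ℝ) * t - ((i + 1 + x : ℕ) : ℝ))) = 0 := by
    apply Finset.sum_eq_zero
    intro x _
    have e : ((i + 1 + d : ℕ) : ℝ) = ((i + d + 1 : ℕ) : ℝ) := by push_cast; ring
    have h2 : ((i + 1 + x : ℕ) : ℝ) = (i : ℝ) + 1 + x := by push_cast; ring
    have hx0 : (0 : ℝ) ≤ x := Nat.cast_nonneg x
    rw [e, h2, max_eq_left (by linarith), min_eq_right (by norm_num), mul_zero]
  rw [a1, a2]
  have e : ((i + 1 + d : ℕ) : ℝ) = ((i + d + 1 : ℕ) : ℝ) := by push_cast; ring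
  rw [e, max_eq_right (by linarith), min_eq_right (by linarith)]
  ring

theorem exists_idx (M : ℕ) (hM : 0 < M) {t : ℝ} (h0 : 0 ≤ t) (h1 : t ≤ 1) :
    ∃ i < M, (i : ℝ) ≤ M * t ∧ (M : ℝ) * t ≤ i + 1 := by
  have hM' : (0 : ℝ) < M := by exact_mod_cast hM
  rcases h1.lt_or_eq with h | h
  · refine ⟨⌊(M : ℝ) * t⌋₊, ?_, Nat.floor_le (by positivity), (Nat.lt_floor_add_one _).le⟩
    rw [Nat.floor_lt (by positivity)]
    nlinarith
  · refine ⟨M - 1, by omega, ?_, ?_⟩
    · rw [h, mul_one, Nat.cast_sub (by omega)]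
      simp
    · rw [h, mul_one, Nat.cast_sub (by omega)]
      simp

/-- refinement: the vertices of a stage are vertices of the next stage -/
theorem sum_refine (c c' : ℕ → ℝ) (h : ∀ i, c' (2 * i) + c' (2 * i + 1) = c i) (i : ℕ) :
    ∑ x ∈ range (2 * i), c' x = ∑ x ∈ range i, c x := by
  induction i with
  | zero => simp
  | succ i ih =>
    rw [show 2 * (i + 1) = 2 * i + 1 + 1 by ring, Finset.sum_range_succ, Finset.sum_range_succ, ih,
      Finset.sum_range_succ, ← h i]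
    ring

theorem b_even (α : ℝ) (k i : ℕ) : b α (k + 1) (2 * i) = b α k i + if i % 2 = 0 then α else -α := by
  have h1 : 2 * i / 2 = i := by omega
  have h2 : (i + 2 * i % 2) % 2 = i % 2 := by omega
  rw [b, h1, h2]

theorem b_odd (α : ℝ) (k i : ℕ) :
    b α (k + 1) (2 * i + 1) = b α k i + if i % 2 = 0 then -α else α := by
  have h1 : (2 * i + 1) / 2 = i := by omega
  rw [b, h1]
  rcases Nat.mod_two_eq_zero_or_one i with h | h
  · have h2 : (i + (2 * i + 1) % 2) % 2 = 1 := by omega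
    rw [h2, h]
    simp
  · have h2 : (i + (2 * i + 1) % 2) % 2 = 0 := by omega
    rw [h2, h]
    simp

theorem gc_refine {α : ℝ} (hα : 0 < Real.cos α) (k i : ℕ) :
    gc α (k + 1) (2 * i) + gc α (k + 1) (2 * i + 1) = gc α k i := by
  unfold gc
  rw [b_even, b_odd]
  have h2 : (2 * Real.cos α) ^ k ≠ 0 := by positivity
  split_ifs
  · rw [Real.sin_add, Real.sin_add, Real.cos_neg, Real.sin_neg, pow_succ]
    field_simp
    ring
  · rw [Real.sin_add, Real.sin_add, Real.cos_neg, Real.sin_neg, pow_succ]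
    field_simp
    ring

theorem gc_bound {α : ℝ} (hα : 0 < Real.cos α) (k i : ℕ) :
    |gc α k i| ≤ (1 / (2 * Real.cos α)) ^ k := by
  unfold gc
  rw [abs_div, abs_of_pos (by positivity : (0 : ℝ) < (2 * Real.cos α) ^ k), one_div, inv_pow,
    div_eq_mul_inv]
  calc |Real.sin (b α k i)| * ((2 * Real.cos α) ^ k)⁻¹ ≤ 1 * ((2 * Real.cos α) ^ k)⁻¹ :=
        mul_le_mul_of_nonneg_right (Real.abs_sin_le_one _) (by positivity)
    _ = _ := one_mul _

theorem yk_step {α : ℝ} (hα : 1 < 2 * Real.cos α) (k : ℕ) {t : ℝ} (h0 : 0 ≤ t) (h1 : t ≤ 1) :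
    |yk α (k + 1) t - yk α k t| ≤ 3 * (1 / (2 * Real.cos α)) ^ k := by
  have hc : 0 < Real.cos α := by linarith
  obtain ⟨i, hi, hi0, hi1⟩ := exists_idx (2 ^ k) (by positivity) h0 h1
  have e1 : yk α k t = ∑ x ∈ range i, gc α k x + gc α k i * (((2 ^ k : ℕ) : ℝ) * t - i) :=
    pwl_eq _ _ hi hi0 hi1
  have hM : ((2 ^ (k + 1) : ℕ) : ℝ) = 2 * ((2 ^ k : ℕ) : ℝ) := by push_cast; ring
  have hr : (1 / (2 * Real.cos α)) ^ (k + 1) ≤ (1 / (2 * Real.cos α)) ^ k := by
    apply pow_le_pow_of_le_one (by positivity) _ (Nat.le_succ k)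
    rw [div_le_one (by linarith)]
    exact hα.le
  have g0 := gc_bound hc k i
  have g1 := (gc_bound hc (k + 1) (2 * i)).trans hr
  have g2 := (gc_bound hc (k + 1) (2 * i + 1)).trans hr
  have hs := sum_refine (gc α k) (gc α (k + 1)) (gc_refine hc k) i
  have u0 : 0 ≤ ((2 ^ k : ℕ) : ℝ) * t - i := by linarith
  have u1 : ((2 ^ k : ℕ) : ℝ) * t - i ≤ 1 := by linarith
  have tri : ∀ a b' c u v w R : ℝ, |a| ≤ R → |b'| ≤ R → |c| ≤ R → |u| ≤ 1 → |v| ≤ 1 → |w| ≤ 1 →
      |a * u + b' * v - c * w| ≤ 3 * R := by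
    intro a b' c u v w R ha hb hc' hu hv hw
    have k1 : |a * u| ≤ R := by
      rw [abs_mul]
      nlinarith [abs_nonneg a, abs_nonneg u]
    have k2 : |b' * v| ≤ R := by
      rw [abs_mul]
      nlinarith [abs_nonneg b', abs_nonneg v]
    have k3 : |c * w| ≤ R := by
      rw [abs_mul]
      nlinarith [abs_nonneg c, abs_nonneg w]
    rw [abs_le] at k1 k2 k3 ⊢
    constructor <;> linarith [k1.1, k1.2, k2.1, k2.2, k3.1, k3.2]
  rcases le_or_gt (2 * (((2 ^ k : ℕ) : ℝ) * t - i)) 1 with hcase | hcase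
  · have e2 : yk α (k + 1) t = ∑ x ∈ range (2 * i), gc α (k + 1) x
        + gc α (k + 1) (2 * i) * (((2 ^ (k + 1) : ℕ) : ℝ) * t - (2 * i : ℕ)) := by
      apply pwl_eq
      · rw [pow_succ]; omega
      · rw [hM]; push_cast; push_cast at hi0; linarith
      · rw [hM]; push_cast; push_cast at hcase; linarith
    rw [e1, e2, hs]
    have := tri (gc α (k + 1) (2 * i)) 0 (gc α k i)
      (((2 ^ (k + 1) : ℕ) : ℝ) * t - (2 * i : ℕ)) 0 (((2 ^ k : ℕ) : ℝ) * t - i)
      ((1 / (2 * Real.cos α)) ^ k) g1 (by simp; positivity) g0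
      (by rw [hM, abs_le]; push_cast; push_cast at hcase u0; constructor <;> linarith)
      (by simp) (by rw [abs_le]; constructor <;> linarith)
    convert this using 2
    ring
  · have e2 : yk α (k + 1) t = ∑ x ∈ range (2 * i + 1), gc α (k + 1) x
        + gc α (k + 1) (2 * i + 1) * (((2 ^ (k + 1) : ℕ) : ℝ) * t - (2 * i + 1 : ℕ)) := by
      apply pwl_eq
      · rw [pow_succ]; omega
      · rw [hM]; push_cast; push_cast at hcase; linarith
      · rw [hM]; push_cast; push_cast at u1; linarith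
    rw [e1, e2, Finset.sum_range_succ, hs]
    have := tri (gc α (k + 1) (2 * i)) (gc α (k + 1) (2 * i + 1)) (gc α k i)
      1 (((2 ^ (k + 1) : ℕ) : ℝ) * t - (2 * i + 1 : ℕ)) (((2 ^ k : ℕ) : ℝ) * t - i)
      ((1 / (2 * Real.cos α)) ^ k) g1 g2 g0 (by simp)
      (by rw [hM, abs_le]; push_cast; push_cast at hcase u1; constructor <;> linarith)
      (by rw [abs_le]; constructor <;> linarith)
    convert this using 2
    ring

/-- uniform convergence of the stages -/
theorem exists_limit {α : ℝ} (hα : 1 < 2 * Real.cos α) :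
    ∃ y : ℝ → ℝ, TendstoUniformlyOn (yk α) y atTop (Set.Icc 0 1) := by
  set r : ℝ := 1 / (2 * Real.cos α) with hr
  have hr0 : 0 ≤ r := by positivity
  have hr1 : r < 1 := by rw [hr, div_lt_one (by linarith)]; exact hα
  have hd : ∀ t ∈ Set.Icc (0 : ℝ) 1, ∀ k, dist (yk α k t) (yk α (k + 1) t) ≤ 3 * r ^ k := by
    intro t ht k
    rw [dist_comm, Real.dist_eq]
    exact yk_step hα k ht.1 ht.2
  have hcau : ∀ t ∈ Set.Icc (0 : ℝ) 1, ∃ l, Tendsto (fun k => yk α k t) atTop (𝓝 l) := by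
    intro t ht
    exact cauchySeq_tendsto_of_complete (cauchySeq_of_le_geometric r 3 hr1 (hd t ht))
  choose! y hy using hcau
  refine ⟨y, ?_⟩
  rw [Metric.tendstoUniformlyOn_iff]
  intro ε hε
  have hlim : Tendsto (fun k : ℕ => 3 * r ^ k / (1 - r)) atTop (𝓝 0) := by
    have := ((tendsto_pow_atTop_nhds_zero_of_lt_one hr0 hr1).const_mul 3).div_const (1 - r)
    simpa using this
  filter_upwards [hlim.eventually (eventually_lt_nhds hε)] with k hk t ht
  have := dist_le_of_le_geometric_of_tendsto r 3 hr1 (hd t ht) (hy t ht) k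
  rw [dist_comm]
  exact lt_of_le_of_lt this hk

end Pool.Agent.R266.Dr
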