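import Pool.Agent.R266.DrA

set_option autoImplicit false

/-!
# The dragon curve with `α = π / 6`: the combinatorial structure in base `3` and `4`
-/

open Filter Topology Finset

namespace Pool.Agent.R266.Dr

/-- increments of the direction (multiples of `π / 3`, modulo `6`) -/
def dd (e0 e : ℕ) : ℕ :=
  if e0 = 0 then (if e = 0 then 1 else if e = 2 then 5 else 0)
  else (if e = 1 then 5 else if e = 3 then 1 else 0)

/-- direction of the child number `e` of a piece with direction `a` and parity `e0` -/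
def ch (a e0 e : ℕ) : ℕ := (a + dd e0 e) % 6

/-- directions of the pieces of the stages of even order, as multiples of `π / 3` modulo `6` -/
def am : ℕ → ℕ → ℕ
  | 0, _ => 0
  | n + 1, i => ch (am n (i / 4)) (i / 4 % 2) (i % 4)

/-- vertical increment -/
def sg (a : ℕ) : ℤ := if a = 1 ∨ a = 2 then 1 else if a = 4 ∨ a = 5 then -1 else 0

theorem am_lt (n i : ℕ) : am n i < 6 := by
  cases n with
  | zero => simp [am]
  | succ n => exact Nat.mod_lt _ (by norm_num)

theorem am_child (n j e : ℕ) (he : e < 4) : am (n + 1) (4 * j + e) = ch (am n j) (j % 2) e := by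
  have h1 : (4 * j + e) / 4 = j := by omega
  have h2 : (4 * j + e) % 4 = e := by omega
  rw [am, h1, h2]

theorem b_two (α : ℝ) (n i : ℕ) : b α (2 * n + 2) i = b α (2 * n) (i / 4)
    + ((if (i / 4 + i / 2 % 2) % 2 = 0 then α else -α)
      + (if (i / 2 + i % 2) % 2 = 0 then α else -α)) := by
  have h1 : i / 2 / 2 = i / 4 := by omega
  rw [b, b, h1]
  ring

theorem b_am (n : ℕ) : ∀ i, ∃ z : ℤ, b (Real.pi / 6) (2 * n) i
    = (am n i : ℝ) * (Real.pi / 3) + z * (2 * Real.pi) := by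
  induction n with
  | zero => intro i; exact ⟨0, by simp [b, am]⟩
  | succ n ih =>
    intro i
    obtain ⟨z, hz⟩ := ih (i / 4)
    rw [show 2 * (n + 1) = 2 * n + 2 by ring, b_two, hz, am]
    have hd : ∃ w : ℤ, ((if (i / 4 + i / 2 % 2) % 2 = 0 then Real.pi / 6 else -(Real.pi / 6))
      + (if (i / 2 + i % 2) % 2 = 0 then Real.pi / 6 else -(Real.pi / 6)))
      = (dd (i / 4 % 2) (i % 4) : ℝ) * (Real.pi / 3) + w * (2 * Real.pi) := by
      have hj : i / 4 % 2 = 0 ∨ i / 4 % 2 = 1 := Nat.mod_two_eq_zero_or_one _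
      have he : i % 4 = 0 ∨ i % 4 = 1 ∨ i % 4 = 2 ∨ i % 4 = 3 := by omega
      rcases hj with hj | hj <;> rcases he with he | he | he | he
      · have c1 : (i / 4 + i / 2 % 2) % 2 = 0 := by omega
        have c2 : (i / 2 + i % 2) % 2 = 0 := by omega
        refine ⟨0, ?_⟩
        rw [c1, c2, hj, he]; norm_num [dd]; ring
      · have c1 : (i / 4 + i / 2 % 2) % 2 = 0 := by omega
        have c2 : (i / 2 + i % 2) % 2 = 1 := by omega
        refine ⟨0, ?_⟩
        rw [c1, c2, hj, he]; norm_num [dd]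
      · have c1 : (i / 4 + i / 2 % 2) % 2 = 1 := by omega
        have c2 : (i / 2 + i % 2) % 2 = 1 := by omega
        refine ⟨-1, ?_⟩
        rw [c1, c2, hj, he]; norm_num [dd]; ring
      · have c1 : (i / 4 + i / 2 % 2) % 2 = 1 := by omega
        have c2 : (i / 2 + i % 2) % 2 = 0 := by omega
        refine ⟨0, ?_⟩
        rw [c1, c2, hj, he]; norm_num [dd]
      · have c1 : (i / 4 + i / 2 % 2) % 2 = 1 := by omega
        have c2 : (i / 2 + i % 2) % 2 = 0 := by omega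
        refine ⟨0, ?_⟩
        rw [c1, c2, hj, he]; norm_num [dd]
      · have c1 : (i / 4 + i / 2 % 2) % 2 = 1 := by omega
        have c2 : (i / 2 + i % 2) % 2 = 1 := by omega
        refine ⟨-1, ?_⟩
        rw [c1, c2, hj, he]; norm_num [dd]; ring
      · have c1 : (i / 4 + i / 2 % 2) % 2 = 0 := by omega
        have c2 : (i / 2 + i % 2) % 2 = 1 := by omega
        refine ⟨0, ?_⟩
        rw [c1, c2, hj, he]; norm_num [dd]
      · have c1 : (i / 4 + i / 2 % 2) % 2 = 0 := by omega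
        have c2 : (i / 2 + i % 2) % 2 = 0 := by omega
        refine ⟨0, ?_⟩
        rw [c1, c2, hj, he]; norm_num [dd]; ring
    obtain ⟨w, hw⟩ := hd
    rw [hw]
    set s := am n (i / 4) + dd (i / 4 % 2) (i % 4) with hs
    obtain ⟨q, hq⟩ : ∃ q : ℕ, q = s / 6 := ⟨_, rfl⟩
    refine ⟨z + w + (q : ℤ), ?_⟩
    have h6 : (s : ℝ) = 6 * (q : ℝ) + ((s % 6 : ℕ) : ℝ) := by
      rw [hq]
      exact_mod_cast (Nat.div_add_mod s 6).symm
    have hsr : (s : ℝ) = (am n (i / 4) : ℝ) + (dd (i / 4 % 2) (i % 4) : ℝ) := by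
      rw [hs]; push_cast; ring
    have hch : ch (am n (i / 4)) (i / 4 % 2) (i % 4) = s % 6 := rfl
    rw [hch]
    push_cast
    have : (am n (i / 4) : ℝ) + (dd (i / 4 % 2) (i % 4) : ℝ)
        = 6 * (q : ℝ) + ((s % 6 : ℕ) : ℝ) := by rw [← hsr]; exact h6
    linear_combination (Real.pi / 3) * this

theorem sin_table (a : ℕ) (ha : a < 6) :
    Real.sin ((a : ℝ) * (Real.pi / 3)) = Real.sqrt 3 / 2 * (sg a : ℝ) := by
  interval_cases a
  · simp [sg]
  · simp [sg, Real.sin_pi_div_three]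
  · have : ((2 : ℕ) : ℝ) * (Real.pi / 3) = Real.pi - Real.pi / 3 := by push_cast; ring
    rw [this, Real.sin_pi_sub, Real.sin_pi_div_three]
    simp [sg]
  · have : ((3 : ℕ) : ℝ) * (Real.pi / 3) = Real.pi := by push_cast; ring
    rw [this, Real.sin_pi]
    simp [sg]
  · have : ((4 : ℕ) : ℝ) * (Real.pi / 3) = Real.pi / 3 + Real.pi := by push_cast; ring
    rw [this, Real.sin_add_pi, Real.sin_pi_div_three]
    simp [sg]
  · have : ((5 : ℕ) : ℝ) * (Real.pi / 3) = -(Real.pi / 3) + 2 * Real.pi := by push_cast; ring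
    rw [this, Real.sin_add_two_pi, Real.sin_neg, Real.sin_pi_div_three]
    simp [sg]

theorem gc_eq (n i : ℕ) :
    gc (Real.pi / 6) (2 * n) i = Real.sqrt 3 / 2 * ((sg (am n i) : ℝ) / 3 ^ n) := by
  obtain ⟨z, hz⟩ := b_am n i
  unfold gc
  rw [hz]
  have h1 : Real.sin ((am n i : ℝ) * (Real.pi / 3) + z * (2 * Real.pi))
      = Real.sin ((am n i : ℝ) * (Real.pi / 3)) := Real.sin_add_int_mul_two_pi _ _
  have h2 : (2 * Real.cos (Real.pi / 6)) ^ (2 * n) = 3 ^ n := by
    rw [pow_mul, Real.cos_pi_div_six]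
    congr 1
    have : (2 * (Real.sqrt 3 / 2)) ^ 2 = Real.sqrt 3 ^ 2 := by ring
    rw [this, Real.sq_sqrt (by norm_num)]
  rw [h1, h2, sin_table _ (am_lt n i)]
  ring

/-- the normalized stages -/
noncomputable def FF (n : ℕ) : ℝ → ℝ := pwl (4 ^ n) (fun i => (sg (am n i) : ℝ) / 3 ^ n)

theorem yk_eq (n : ℕ) (t : ℝ) : yk (Real.pi / 6) (2 * n) t = Real.sqrt 3 / 2 * FF n t := by
  unfold yk FF pwl
  rw [Finset.mul_sum]
  have : 2 ^ (2 * n) = 4 ^ n := by rw [pow_mul]; norm_num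
  rw [this]
  apply Finset.sum_congr rfl
  intro i _
  rw [gc_eq]
  ring

/-- the integer height of the starting point of a piece -/
def pp (n j : ℕ) : ℤ := ∑ i ∈ range j, sg (am n i)

/-- height of the starting point of a child relative to that of the parent -/
def pos (a e0 e : ℕ) : ℤ := ∑ x ∈ range e, sg (ch a e0 x)

theorem sum_ch : ∀ a < 6, ∀ e0 < 2, pos a e0 4 = 3 * sg a := by decide

theorem pp_child4 (n j : ℕ) : pp (n + 1) (4 * j) = 3 * pp n j := by
  induction j with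
  | zero => simp [pp]
  | succ j ih =>
    have h1 : pp (n + 1) (4 * (j + 1)) = pp (n + 1) (4 * j) + pos (am n j) (j % 2) 4 := by
      unfold pp pos
      rw [show 4 * (j + 1) = 4 * j + 4 by ring, Finset.sum_range_add]
      congr 1
      apply Finset.sum_congr rfl
      intro x hx
      rw [am_child n j x (Finset.mem_range.1 hx)]
    rw [h1, ih, sum_ch _ (am_lt n j) _ (Nat.mod_lt _ (by norm_num))]
    unfold pp
    rw [Finset.sum_range_succ]
    ring

theorem pp_child (n j e : ℕ) (he : e < 4) :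
    pp (n + 1) (4 * j + e) = 3 * pp n j + pos (am n j) (j % 2) e := by
  rw [← pp_child4]
  unfold pp pos
  rw [Finset.sum_range_add]
  congr 1
  apply Finset.sum_congr rfl
  intro x hx
  rw [am_child n j x (lt_trans (Finset.mem_range.1 hx) he)]

/-- three times the lower and upper bounds of the pieces -/
def lo3 (a : ℕ) : ℤ := if a = 0 ∨ a = 3 then -2 else if a = 1 ∨ a = 2 then -1 else -4
def hi3 (a : ℕ) : ℤ := if a = 0 ∨ a = 3 then 2 else if a = 1 ∨ a = 2 then 4 else 1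

theorem range_step : ∀ a < 6, ∀ e0 < 2, ∀ e < 4,
    3 * lo3 a ≤ 3 * pos a e0 e + lo3 (ch a e0 e) ∧
    3 * pos a e0 e + hi3 (ch a e0 e) ≤ 3 * hi3 a := by decide

theorem range_zero : ∀ a < 6, lo3 a ≤ 0 ∧ 0 ≤ hi3 a ∧ lo3 a ≤ 3 * sg a ∧ 3 * sg a ≤ hi3 a := by
  decide

theorem FF_range (d : ℕ) : ∀ (n j : ℕ) (t : ℝ), j < 4 ^ n → (j : ℝ) ≤ 4 ^ n * t →
    (4 : ℝ) ^ n * t ≤ j + 1 → (lo3 (am n j) : ℝ) ≤ 3 * (3 ^ n * FF (n + d) t - pp n j) ∧
    3 * (3 ^ n * FF (n + d) t - pp n j) ≤ (hi3 (am n j) : ℝ) := by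
  induction d with
  | zero =>
    intro n j t hj h0 h1
    have e1 : FF (n + 0) t = ∑ i' ∈ range j, (sg (am n i') : ℝ) / 3 ^ n
        + (sg (am n j) : ℝ) / 3 ^ n * (((4 ^ n : ℕ) : ℝ) * t - j) := by
      apply pwl_eq _ _ hj
      · push_cast; exact h0
      · push_cast; exact h1
    have e2 : (3 : ℝ) ^ n * FF (n + 0) t - pp n j = sg (am n j) * (4 ^ n * t - j) := by
      rw [e1, ← Finset.sum_div]
      have : ((pp n j : ℤ) : ℝ) = ∑ i ∈ range j, (sg (am n i) : ℝ) := by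
        unfold pp; push_cast; rfl
      rw [this]
      push_cast
      field_simp
      ring
    rw [e2]
    obtain ⟨r1, r2, r3, r4⟩ := range_zero _ (am_lt n j)
    have r1' : (lo3 (am n j) : ℝ) ≤ 0 := by exact_mod_cast r1
    have r2' : (0 : ℝ) ≤ hi3 (am n j) := by exact_mod_cast r2
    have r3' : (lo3 (am n j) : ℝ) ≤ 3 * sg (am n j) := by exact_mod_cast r3
    have r4' : 3 * (sg (am n j) : ℝ) ≤ hi3 (am n j) := by exact_mod_cast r4
    have u0 : 0 ≤ (4 : ℝ) ^ n * t - j := by linarith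
    have u1 : (4 : ℝ) ^ n * t - j ≤ 1 := by linarith
    constructor <;> nlinarith
  | succ d ih =>
    intro n j t hj h0 h1
    obtain ⟨e, he, he0, he1⟩ := exists_idx 4 (by norm_num) (t := 4 ^ n * t - j) (by linarith)
      (by linarith)
    push_cast at he0 he1
    have h4 : 4 * j + e < 4 ^ (n + 1) := by rw [pow_succ]; omega
    obtain ⟨i1, i2⟩ := ih (n + 1) (4 * j + e) t h4
      (by push_cast; rw [pow_succ]; linarith) (by push_cast; rw [pow_succ]; linarith)
    rw [show n + 1 + d = n + (d + 1) by ring, pp_child n j e he, am_child n j e he] at i1 i2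
    obtain ⟨s1, s2⟩ := range_step _ (am_lt n j) (j % 2) (Nat.mod_lt _ (by norm_num)) e he
    have s1' : 3 * (lo3 (am n j) : ℝ) ≤ 3 * (pos (am n j) (j % 2) e : ℝ)
        + lo3 (ch (am n j) (j % 2) e) := by exact_mod_cast s1
    have s2' : 3 * (pos (am n j) (j % 2) e : ℝ) + hi3 (ch (am n j) (j % 2) e)
        ≤ 3 * (hi3 (am n j) : ℝ) := by exact_mod_cast s2
    push_cast at i1 i2
    rw [pow_succ] at i1 i2
    constructor <;> linarith

theorem lim_range {y : ℝ → ℝ} {t : ℝ}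
    (hy : Tendsto (fun k => yk (Real.pi / 6) k t) atTop (𝓝 (y t))) (n j : ℕ) (hj : j < 4 ^ n)
    (h0 : (j : ℝ) ≤ 4 ^ n * t) (h1 : (4 : ℝ) ^ n * t ≤ j + 1) :
    (lo3 (am n j) : ℝ) ≤ 3 * (3 ^ n * (2 / Real.sqrt 3 * y t) - pp n j) ∧
    3 * (3 ^ n * (2 / Real.sqrt 3 * y t) - pp n j) ≤ (hi3 (am n j) : ℝ) := by
  have hs : Real.sqrt 3 ≠ 0 := by positivity
  have h2 : Tendsto (fun d => FF (n + d) t) atTop (𝓝 (2 / Real.sqrt 3 * y t)) := by
    have h3 : Tendsto (fun d : ℕ => 2 * (n + d)) atTop atTop :=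
      tendsto_atTop_mono (fun d => by simp only [id]; omega) tendsto_id
    have h4 := (hy.comp h3).const_mul (2 / Real.sqrt 3)
    refine h4.congr (fun d => ?_)
    simp only [Function.comp]
    rw [yk_eq]
    field_simp
  have h5 : Tendsto (fun d => 3 * ((3 : ℝ) ^ n * FF (n + d) t - pp n j)) atTop
      (𝓝 (3 * (3 ^ n * (2 / Real.sqrt 3 * y t) - pp n j))) :=
    ((h2.const_mul _).sub_const _).const_mul _
  exact ⟨ge_of_tendsto' h5 fun d => (FF_range d n j t hj h0 h1).1,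
    le_of_tendsto' h5 fun d => (FF_range d n j t hj h0 h1).2⟩

end Pool.Agent.R266.Dr
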