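import Pool.Agent.R266.DrB

set_option autoImplicit false

/-!
# The dragon curve with `α = π / 6`: weighted counting
-/

open Filter Topology Finset

namespace Pool.Agent.R266.Dr

/-- weights of the rows `-2, -1, 0, 1` relative to a piece of direction `a` and parity `e` -/
def tab (a e : ℕ) : ℕ × ℕ × ℕ × ℕ :=
  if a = 0 then (if e = 0 then (0, 178, 646, 0) else (0, 646, 178, 0))
  else if a = 1 then (if e = 0 then (0, 41, 794, 10) else (0, 10, 794, 41))
  else if a = 2 then (if e = 0 then (0, 168, 636, 41) else (0, 41, 636, 168))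
  else if a = 3 then (if e = 0 then (0, 646, 178, 0) else (0, 178, 646, 0))
  else if a = 4 then (if e = 0 then (10, 794, 41, 0) else (41, 794, 10, 0))
  else (if e = 0 then (41, 636, 168, 0) else (168, 636, 41, 0))

def Wt (a e : ℕ) (r : ℤ) : ℕ :=
  if r = -2 then (tab a e).1 else if r = -1 then (tab a e).2.1
  else if r = 0 then (tab a e).2.2.1 else if r = 1 then (tab a e).2.2.2 else 0

/-- the possible relative rows -/
def Q4 : Finset ℤ := {-2, -1, 0, 1}

theorem Wt_step : ∀ a < 6, ∀ e0 < 2, ∀ r ∈ Q4,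
    ∑ e ∈ range 4, ∑ d ∈ range 3, (if d = 1 then 11 else 10) *
      Wt (ch a e0 e) (e % 2) (3 * r + d - pos a e0 e) ≤ 41 * Wt a e0 r := by
  decide

theorem pos_bd : ∀ a < 6, ∀ e0 < 2, ∀ e < 4, -3 ≤ pos a e0 e ∧ pos a e0 e ≤ 3 := by decide

/-- number of digits `1` among the `n` last digits of `R` in base `3` -/
def cnt : ℕ → ℤ → ℕ
  | 0, _ => 0
  | n + 1, R => cnt n (R / 3) + if R % 3 = 1 then 1 else 0

theorem cnt_digit (n : ℕ) (R : ℤ) (d : ℕ) (hd : d < 3) :
    cnt (n + 1) (3 * R + d) = cnt n R + if d = 1 then 1 else 0 := by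
  have h1 : (3 * R + (d : ℤ)) / 3 = R := by omega
  rw [cnt, h1]
  congr 1
  have h2 : (3 * R + (d : ℤ)) % 3 = 1 ↔ d = 1 := by omega
  simp only [h2]

theorem cnt_le (n : ℕ) : ∀ R, cnt n R ≤ n := by
  induction n with
  | zero => intro R; simp [cnt]
  | succ n ih =>
    intro R
    rw [cnt]
    have := ih (R / 3)
    split_ifs <;> omega

theorem cnt_split (n L : ℕ) : ∀ R : ℤ, cnt (n + L) R = cnt n (R / 3 ^ L) + cnt L R := by
  induction L with
  | zero => intro R; simp [cnt]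
  | succ L ih =>
    intro R
    rw [← add_assoc, cnt, ih, cnt]
    have h1 : R / 3 / 3 ^ L = R / 3 ^ (L + 1) := by
      rw [pow_succ, mul_comm, Int.ediv_ediv_of_nonneg (by norm_num)]
    rw [h1]
    ring

theorem cnt_mul_add (L : ℕ) : ∀ (a v : ℤ), cnt L (3 ^ L * a + v) = cnt L v := by
  induction L with
  | zero => intro a v; simp [cnt]
  | succ L ih =>
    intro a v
    rw [cnt, cnt]
    have h0 : (3 : ℤ) ^ (L + 1) * a + v = 3 * (3 ^ L * a) + v := by ring
    have h1 : ((3 : ℤ) ^ (L + 1) * a + v) / 3 = 3 ^ L * a + v / 3 := by rw [h0]; omega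
    have h2 : ((3 : ℤ) ^ (L + 1) * a + v) % 3 = v % 3 := by rw [h0]; omega
    rw [h1, h2, ih]

/-- the weighted number of pairs (piece, row) -/
noncomputable def AA (n : ℕ) : ℝ :=
  ∑ j ∈ range (4 ^ n), ∑ r ∈ Q4, (11 / 10 : ℝ) ^ cnt n (pp n j + r) * Wt (am n j) (j % 2) r

theorem sumQ (G : ℤ → ℝ) : ∑ r ∈ Q4, G r = G (-2) + G (-1) + G 0 + G 1 := by
  unfold Q4
  rw [Finset.sum_insert (by decide), Finset.sum_insert (by decide), Finset.sum_insert (by decide),
    Finset.sum_singleton]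
  ring

theorem inner_le (G : ℤ → ℝ) (hG : ∀ r, 0 ≤ G r) (p : ℤ) (h0 : -3 ≤ p) (h1 : p ≤ 3) :
    ∑ r ∈ Q4, G r ≤ ∑ r ∈ Q4, ∑ d ∈ range 3, G (3 * r + d - p) := by
  rw [sumQ, sumQ]
  simp only [Finset.sum_range_succ, Finset.sum_range_zero, zero_add]
  have hh : ∀ a b : ℤ, a = b → G a = G b := fun a b h => by rw [h]
  interval_cases p
  all_goals
    norm_num
    linarith [hG (-7), hG (-6), hG (-5), hG (-4), hG (-3), hG (-2), hG (-1), hG 0, hG 1, hG 2, hG 3,
      hG 4, hG 5, hG 6, hG 7, hG 8, hG (-8), hG (-9), hG 9]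

theorem AA_step (n : ℕ) : AA (n + 1) ≤ 41 / 10 * AA n := by
  have e1 : AA (n + 1) = ∑ j ∈ range (4 ^ n), ∑ e ∈ range 4, ∑ r ∈ Q4,
      (11 / 10 : ℝ) ^ cnt (n + 1) (3 * pp n j + pos (am n j) (j % 2) e + r)
        * Wt (ch (am n j) (j % 2) e) (e % 2) r := by
    unfold AA
    rw [show 4 ^ (n + 1) = 4 * 4 ^ n by ring]
    have hsum : ∀ (f : ℕ → ℝ) (J : ℕ), ∑ i ∈ range (4 * J), f i
        = ∑ j ∈ range J, ∑ e ∈ range 4, f (4 * j + e) := by
      intro f J
      induction J with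
      | zero => simp
      | succ J ih => rw [Finset.sum_range_succ, ← ih, Nat.mul_succ, Finset.sum_range_add]
    rw [hsum]
    apply Finset.sum_congr rfl
    intro j _
    apply Finset.sum_congr rfl
    intro e he
    have he' := Finset.mem_range.1 he
    rw [pp_child n j e he', am_child n j e he']
    have : (4 * j + e) % 2 = e % 2 := by omega
    rw [this]
  rw [e1]
  unfold AA
  rw [Finset.mul_sum]
  apply Finset.sum_le_sum
  intro j _
  have ha := am_lt n j
  have hj := Nat.mod_lt j (show 0 < 2 by norm_num)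
  calc ∑ e ∈ range 4, ∑ r ∈ Q4,
        (11 / 10 : ℝ) ^ cnt (n + 1) (3 * pp n j + pos (am n j) (j % 2) e + r)
          * Wt (ch (am n j) (j % 2) e) (e % 2) r
      ≤ ∑ e ∈ range 4, ∑ r ∈ Q4, ∑ d ∈ range 3,
        (11 / 10 : ℝ) ^ cnt (n + 1) (3 * pp n j + pos (am n j) (j % 2) e
          + (3 * r + d - pos (am n j) (j % 2) e))
          * Wt (ch (am n j) (j % 2) e) (e % 2) (3 * r + d - pos (am n j) (j % 2) e) := by
        apply Finset.sum_le_sum
        intro e he
        obtain ⟨p0, p1⟩ := pos_bd _ ha _ hj e (Finset.mem_range.1 he)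
        exact inner_le (fun r => (11 / 10 : ℝ) ^ cnt (n + 1)
          (3 * pp n j + pos (am n j) (j % 2) e + r) * Wt (ch (am n j) (j % 2) e) (e % 2) r)
          (fun r => by positivity) _ p0 p1
    _ = ∑ e ∈ range 4, ∑ r ∈ Q4, ∑ d ∈ range 3,
        (11 / 10 : ℝ) ^ cnt n (pp n j + r) * ((if d = 1 then 11 / 10 else 1)
          * Wt (ch (am n j) (j % 2) e) (e % 2) (3 * r + d - pos (am n j) (j % 2) e)) := by
        apply Finset.sum_congr rfl
        intro e _
        apply Finset.sum_congr rfl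
        intro r _
        apply Finset.sum_congr rfl
        intro d hd
        have h1 : 3 * pp n j + pos (am n j) (j % 2) e + (3 * r + d - pos (am n j) (j % 2) e)
            = 3 * (pp n j + r) + d := by ring
        rw [h1, cnt_digit _ _ _ (Finset.mem_range.1 hd), pow_add]
        split_ifs <;> simp <;> ring
    _ = ∑ r ∈ Q4, (11 / 10 : ℝ) ^ cnt n (pp n j + r) * ∑ e ∈ range 4, ∑ d ∈ range 3,
        ((if d = 1 then 11 / 10 else 1)
          * (Wt (ch (am n j) (j % 2) e) (e % 2) (3 * r + d - pos (am n j) (j % 2) e) : ℝ)) := by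
        rw [Finset.sum_comm]
        apply Finset.sum_congr rfl
        intro r _
        rw [Finset.mul_sum]
        apply Finset.sum_congr rfl
        intro e _
        rw [Finset.mul_sum]
    _ ≤ ∑ r ∈ Q4, (11 / 10 : ℝ) ^ cnt n (pp n j + r) * (41 / 10 * Wt (am n j) (j % 2) r) := by
        apply Finset.sum_le_sum
        intro r hr
        apply mul_le_mul_of_nonneg_left _ (by positivity)
        have h1 := Wt_step _ ha _ hj r hr
        have h2 : ((∑ e ∈ range 4, ∑ d ∈ range 3, (if d = 1 then 11 else 10) *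
            Wt (ch (am n j) (j % 2) e) (e % 2) (3 * r + d - pos (am n j) (j % 2) e) : ℕ) : ℝ)
            ≤ ((41 * Wt (am n j) (j % 2) r : ℕ) : ℝ) := by exact_mod_cast h1
        push_cast at h2
        have h3 : ∑ e ∈ range 4, ∑ d ∈ range 3, ((if d = 1 then 11 / 10 else 1)
          * (Wt (ch (am n j) (j % 2) e) (e % 2) (3 * r + d - pos (am n j) (j % 2) e) : ℝ))
            = (∑ e ∈ range 4, ∑ d ∈ range 3, (if d = 1 then 11 else 10) *
            (Wt (ch (am n j) (j % 2) e) (e % 2) (3 * r + d - pos (am n j) (j % 2) e) : ℝ)) / 10 := by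
          rw [Finset.sum_div]
          apply Finset.sum_congr rfl
          intro e _
          rw [Finset.sum_div]
          apply Finset.sum_congr rfl
          intro d _
          split_ifs <;> ring
        rw [h3]
        linarith
    _ = 41 / 10 * ∑ r ∈ Q4, (11 / 10 : ℝ) ^ cnt n (pp n j + r) * Wt (am n j) (j % 2) r := by
        rw [Finset.mul_sum]
        apply Finset.sum_congr rfl
        intro r _
        ring

theorem AA_le (n : ℕ) : AA n ≤ 824 * (41 / 10) ^ n := by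
  induction n with
  | zero =>
    unfold AA
    rw [pow_zero, Finset.sum_range_one, sumQ]
    simp [cnt, Wt, am, tab]
    norm_num
  | succ n ih =>
    have := AA_step n
    rw [pow_succ]
    linarith

theorem BB_eq (L : ℕ) :
    ∑ v ∈ range (3 ^ L), (7 / 10 : ℝ) ^ cnt L (v : ℤ) = (27 / 10) ^ L := by
  induction L with
  | zero => simp [cnt]
  | succ L ih =>
    have hsum : ∀ (f : ℕ → ℝ) (J : ℕ), ∑ i ∈ range (3 * J), f i
        = ∑ j ∈ range J, ∑ e ∈ range 3, f (3 * j + e) := by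
      intro f J
      induction J with
      | zero => simp
      | succ J ih => rw [Finset.sum_range_succ, ← ih, Nat.mul_succ, Finset.sum_range_add]
    rw [show 3 ^ (L + 1) = 3 * 3 ^ L by ring, hsum, pow_succ, ← ih, Finset.sum_mul]
    apply Finset.sum_congr rfl
    intro v _
    have h1 : ∀ e < 3, cnt (L + 1) ((3 * v + e : ℕ) : ℤ) = cnt L v + if e = 1 then 1 else 0 := by
      intro e he
      have := cnt_digit L v e he
      push_cast
      exact this
    rw [Finset.sum_range_succ, Finset.sum_range_succ, Finset.sum_range_one, h1 0 (by norm_num),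
      h1 1 (by norm_num), h1 2 (by norm_num)]
    simp [pow_add]
    ring

/-- the cells used at scale `k` -/
def good (k : ℕ) : Finset (ℕ × ℤ × ℕ) :=
  (range (4 ^ (42 * k)) ×ˢ (Q4 ×ˢ range (3 ^ (11 * k)))).filter (fun q =>
    1 ≤ Wt (am (42 * k) q.1) (q.1 % 2) q.2.1 ∧
    42 * cnt (11 * k) (q.2.2 : ℤ) ≤ 11 * cnt (42 * k) (pp (42 * k) q.1 + q.2.1) + k)

theorem weight_ge (k S S' : ℕ) (h : 42 * S' ≤ 11 * S + k) :
    (99 / 100 : ℝ) ^ k ≤ (11 / 10 : ℝ) ^ S * (7 / 10) ^ S' := by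
  have h1 : ((99 / 100 : ℝ) ^ k) ^ 42 ≤ ((11 / 10 : ℝ) ^ S * (7 / 10) ^ S') ^ 42 := by
    have a1 : ((99 / 100 : ℝ) ^ k) ^ 42 = ((99 / 100 : ℝ) ^ 42) ^ k := by
      rw [← pow_mul, ← pow_mul, mul_comm]
    have a2 : ((11 / 10 : ℝ) ^ S * (7 / 10) ^ S') ^ 42
        = ((11 / 10 : ℝ) ^ 42) ^ S * (7 / 10) ^ (42 * S') := by
      rw [mul_pow, ← pow_mul, ← pow_mul, ← pow_mul, mul_comm S 42, mul_comm S' 42]
    have a3 : (7 / 10 : ℝ) ^ (11 * S + k) ≤ (7 / 10) ^ (42 * S') :=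
      pow_le_pow_of_le_one (by norm_num) (by norm_num) h
    have a4 : (7 / 10 : ℝ) ^ (11 * S + k) = ((7 / 10 : ℝ) ^ 11) ^ S * (7 / 10) ^ k := by
      rw [pow_add, pow_mul]
    have a5 : (1 : ℝ) ≤ (11 / 10 : ℝ) ^ 42 * (7 / 10) ^ 11 := by norm_num
    have a6 : (1 : ℝ) ≤ ((11 / 10 : ℝ) ^ 42 * (7 / 10) ^ 11) ^ S := one_le_pow₀ a5
    have a7 : (99 / 100 : ℝ) ^ 42 ≤ 7 / 10 := by norm_num
    have a8 : ((99 / 100 : ℝ) ^ 42) ^ k ≤ (7 / 10) ^ k :=
      pow_le_pow_left₀ (by positivity) a7 k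
    rw [a1, a2]
    calc ((99 / 100 : ℝ) ^ 42) ^ k ≤ 1 * (7 / 10) ^ k := by rw [one_mul]; exact a8
      _ ≤ ((11 / 10 : ℝ) ^ 42 * (7 / 10) ^ 11) ^ S * (7 / 10) ^ k :=
          mul_le_mul_of_nonneg_right a6 (by positivity)
      _ = ((11 / 10 : ℝ) ^ 42) ^ S * (7 / 10) ^ (11 * S + k) := by rw [a4, mul_pow]; ring
      _ ≤ _ := mul_le_mul_of_nonneg_left a3 (by positivity)
  exact le_of_pow_le_pow_left₀ (by norm_num) (by positivity) h1

theorem good_card (k : ℕ) : ((good k).card : ℝ) * (99 / 100) ^ k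
    ≤ 824 * (41 / 10) ^ (42 * k) * (27 / 10) ^ (11 * k) := by
  have h1 : ((good k).card : ℝ) * (99 / 100) ^ k ≤ ∑ q ∈ good k,
      ((11 / 10 : ℝ) ^ cnt (42 * k) (pp (42 * k) q.1 + q.2.1) *
        Wt (am (42 * k) q.1) (q.1 % 2) q.2.1) * (7 / 10) ^ cnt (11 * k) (q.2.2 : ℤ) := by
    rw [← nsmul_eq_mul, ← Finset.sum_const]
    apply Finset.sum_le_sum
    intro q hq
    obtain ⟨-, hw, hc⟩ := Finset.mem_filter.1 hq
    have h2 := weight_ge k _ _ hc
    have h3 : (1 : ℝ) ≤ Wt (am (42 * k) q.1) (q.1 % 2) q.2.1 := by exact_mod_cast hw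
    have h4 : (0 : ℝ) ≤ (11 / 10 : ℝ) ^ cnt (42 * k) (pp (42 * k) q.1 + q.2.1)
        * (7 / 10) ^ cnt (11 * k) (q.2.2 : ℤ) := by positivity
    nlinarith
  have h2 : ∑ q ∈ good k,
      ((11 / 10 : ℝ) ^ cnt (42 * k) (pp (42 * k) q.1 + q.2.1) *
        Wt (am (42 * k) q.1) (q.1 % 2) q.2.1) * (7 / 10) ^ cnt (11 * k) (q.2.2 : ℤ)
      ≤ ∑ q ∈ range (4 ^ (42 * k)) ×ˢ (Q4 ×ˢ range (3 ^ (11 * k))),
      ((11 / 10 : ℝ) ^ cnt (42 * k) (pp (42 * k) q.1 + q.2.1) *
        Wt (am (42 * k) q.1) (q.1 % 2) q.2.1) * (7 / 10) ^ cnt (11 * k) (q.2.2 : ℤ) := by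
    apply Finset.sum_le_sum_of_subset_of_nonneg (Finset.filter_subset _ _)
    intro q _ _
    positivity
  have h3 : ∑ q ∈ range (4 ^ (42 * k)) ×ˢ (Q4 ×ˢ range (3 ^ (11 * k))),
      ((11 / 10 : ℝ) ^ cnt (42 * k) (pp (42 * k) q.1 + q.2.1) *
        Wt (am (42 * k) q.1) (q.1 % 2) q.2.1) * (7 / 10) ^ cnt (11 * k) (q.2.2 : ℤ)
      = AA (42 * k) * (27 / 10) ^ (11 * k) := by
    rw [Finset.sum_product, AA, Finset.sum_mul]
    apply Finset.sum_congr rfl
    intro j _
    rw [Finset.sum_product, Finset.sum_mul]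
    apply Finset.sum_congr rfl
    intro r _
    rw [← BB_eq, Finset.mul_sum]
  rw [h3] at h2
  refine h1.trans (h2.trans ?_)
  exact mul_le_mul_of_nonneg_right (AA_le _) (by positivity)

/-- the geometric ratio -/
noncomputable def qq : ℝ := (41 / 10) ^ 42 * (27 / 10) ^ 11 / (99 / 100) / (533 / 100) ^ 42

theorem qq_lt : qq < 1 := by
  unfold qq
  norm_num

theorem qq_pos : 0 < qq := by
  unfold qq
  positivity

theorem good_sum (k : ℕ) : ((good k).card : ℝ) * (1 / (533 / 100) ^ 42) ^ k ≤ 824 * qq ^ k := by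
  have h1 := good_card k
  have h99 : (0 : ℝ) < (99 / 100) ^ k := by positivity
  have h2 : ((good k).card : ℝ) ≤ 824 * (41 / 10) ^ (42 * k) * (27 / 10) ^ (11 * k) / (99 / 100) ^ k := by
    rw [le_div_iff₀ h99]; exact h1
  calc ((good k).card : ℝ) * (1 / (533 / 100) ^ 42) ^ k
      ≤ (824 * (41 / 10) ^ (42 * k) * (27 / 10) ^ (11 * k) / (99 / 100) ^ k)
        * (1 / (533 / 100) ^ 42) ^ k := mul_le_mul_of_nonneg_right h2 (by positivity)
    _ = 824 * qq ^ k := by
      have gen : ∀ x y z w : ℝ, 0 < z → 0 < w →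
          824 * x ^ k * y ^ k / z ^ k * (1 / w) ^ k = 824 * (x * y / z / w) ^ k := by
        intro x y z w hz hw
        rw [div_pow (x * y / z), div_pow (x * y), mul_pow, one_div_pow]
        ring
      unfold qq
      rw [pow_mul, pow_mul (27 / 10 : ℝ)]
      exact gen _ _ _ _ (by norm_num) (by positivity)

end Pool.Agent.R266.Dr
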