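import Pool.Agent.R266.DrC

set_option autoImplicit false

/-!
# The dragon curve with `α = π / 6`: pigeonhole and the covering
-/

open Filter Topology Finset

namespace Pool.Agent.R266.Dr

theorem pigeon (S : ℕ → ℕ) (hm : Monotone S) (hS : ∀ n, S n ≤ n) (N : ℕ) :
    ∃ k, N ≤ k ∧ 42 * S (53 * k) ≤ 53 * S (42 * k) + k := by
  by_contra hcon
  push Not at hcon
  have key : ∀ i ≤ 10001, ∃ k, N ≤ k ∧ 4000 ≤ k ∧ i * (42 * k) ≤ 10000 * S (42 * k) := by
    intro i
    induction i with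
    | zero => intro _; exact ⟨max N 4000, le_max_left _ _, le_max_right _ _, by simp⟩
    | succ i ih =>
      intro hi
      obtain ⟨k, h1, h2, h3⟩ := ih (by omega)
      have h4 := hcon k h1
      obtain ⟨k', hk'⟩ : ∃ k', k' = (53 * k + 41) / 42 := ⟨_, rfl⟩
      have h5 : 53 * k ≤ 42 * k' := by omega
      have h6 : 42 * k' ≤ 53 * k + 41 := by omega
      have h7 := hm h5
      refine ⟨k', by omega, by omega, ?_⟩
      have h8 : (i + 1) * (42 * k') ≤ (i + 1) * (53 * k + 41) := Nat.mul_le_mul_left _ h6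
      have h9 : (i + 1) * (53 * k + 41) = 53 * (i * k) + 41 * i + 53 * k + 41 := by ring
      have h10 : i * (42 * k) = 42 * (i * k) := by ring
      rw [h9] at h8
      rw [h10] at h3
      omega
  obtain ⟨k, h1, h2, h3⟩ := key 10001 le_rfl
  have := hS (42 * k)
  omega

theorem floor_div (L : ℕ) (x : ℝ) : ⌊(3 : ℝ) ^ L * x⌋ / 3 ^ L = ⌊x⌋ := by
  have h3 : (0 : ℤ) < 3 ^ L := by positivity
  have h3' : (0 : ℝ) < 3 ^ L := by positivity
  rw [Int.ediv_eq_iff_of_pos h3]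
  constructor
  · rw [Int.le_floor]
    push_cast
    rw [mul_comm]
    exact mul_le_mul_of_nonneg_left (Int.floor_le x) h3'.le
  · rw [Int.floor_lt]
    push_cast
    have := Int.lt_floor_add_one x
    nlinarith

/-- the number of ones among the ternary digits `1, …, n` of `Y`, plus those before the point -/
noncomputable def SS (Y : ℝ) (n : ℕ) : ℕ := cnt n ⌊(3 : ℝ) ^ n * Y⌋

theorem SS_split (Y : ℝ) (n L : ℕ) : SS Y (n + L) = SS Y n + cnt L ⌊(3 : ℝ) ^ (n + L) * Y⌋ := by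
  unfold SS
  rw [cnt_split]
  congr 2
  rw [pow_add, mul_comm ((3 : ℝ) ^ n), mul_assoc, floor_div]

theorem SS_mono (Y : ℝ) : Monotone (SS Y) := by
  apply monotone_nat_of_le_succ
  intro n
  rw [SS_split]
  exact Nat.le_add_right _ _

theorem row_ok : ∀ a < 6, ∀ e < 2, ∀ r ∈ Q4, 3 * r ≤ hi3 a → lo3 a < 3 * (r + 1) →
    1 ≤ Wt a e r := by decide

theorem row_bd : ∀ a < 6, -4 ≤ lo3 a ∧ hi3 a ≤ 4 := by decide

/-- the row number of a cell -/
def RR (k : ℕ) (q : ℕ × ℤ × ℕ) : ℤ := 3 ^ (11 * k) * (pp (42 * k) q.1 + q.2.1) + q.2.2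

/-- the cell -/
noncomputable def cell (k : ℕ) (q : ℕ × ℤ × ℕ) : Set (ℝ × ℝ) :=
  Set.Icc ((q.1 : ℝ) / 4 ^ (42 * k)) (((q.1 : ℝ) + 1) / 4 ^ (42 * k)) ×ˢ
    Set.Icc (Real.sqrt 3 / 2 * ((RR k q : ℝ) / 3 ^ (53 * k)))
      (Real.sqrt 3 / 2 * (((RR k q : ℝ) + 1) / 3 ^ (53 * k)))

theorem exists_cell {y : ℝ → ℝ} {t : ℝ} (ht : t ∈ Set.Icc (0 : ℝ) 1)
    (hy : Tendsto (fun k => yk (Real.pi / 6) k t) atTop (𝓝 (y t))) (N : ℕ) :
    ∃ k, N ≤ k ∧ ∃ q ∈ good k, (t, y t) ∈ cell k q := by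
  set Y := 2 / Real.sqrt 3 * y t with hY
  have hs : Real.sqrt 3 ≠ 0 := by positivity
  have hyY : y t = Real.sqrt 3 / 2 * Y := by rw [hY]; field_simp
  obtain ⟨k, hk, hS⟩ := pigeon (SS Y) (SS_mono Y) (fun n => cnt_le n _) N
  refine ⟨k, hk, ?_⟩
  obtain ⟨j, hj, hj0, hj1⟩ := exists_idx (4 ^ (42 * k)) (by positivity) ht.1 ht.2
  push_cast at hj0 hj1
  obtain ⟨g1, g2⟩ := lim_range hy (42 * k) j hj hj0 hj1
  rw [← hY] at g1 g2
  set ρ := ⌊(3 : ℝ) ^ (42 * k) * Y⌋ with hρ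
  have f1 : (ρ : ℝ) ≤ 3 ^ (42 * k) * Y := Int.floor_le _
  have f2 : (3 : ℝ) ^ (42 * k) * Y < ρ + 1 := Int.lt_floor_add_one _
  obtain ⟨r, hr⟩ : ∃ r, r = ρ - pp (42 * k) j := ⟨_, rfl⟩
  have ha := am_lt (42 * k) j
  have r1 : 3 * r ≤ hi3 (am (42 * k) j) := by
    have : (3 : ℝ) * ((r : ℤ) : ℝ) ≤ hi3 (am (42 * k) j) := by
      rw [hr]; push_cast; linarith
    exact_mod_cast this
  have r2 : lo3 (am (42 * k) j) < 3 * (r + 1) := by
    have : (lo3 (am (42 * k) j) : ℝ) < 3 * (((r : ℤ) : ℝ) + 1) := by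
      rw [hr]; push_cast; linarith
    exact_mod_cast this
  have hrQ : r ∈ Q4 := by
    obtain ⟨b1, b2⟩ := row_bd _ ha
    have : r = -2 ∨ r = -1 ∨ r = 0 ∨ r = 1 := by omega
    simp only [Q4, Finset.mem_insert, Finset.mem_singleton]
    exact this
  have hm : 53 * k = 42 * k + 11 * k := by ring
  set R := ⌊(3 : ℝ) ^ (53 * k) * Y⌋ with hR
  have hdiv : R / 3 ^ (11 * k) = ρ := by
    rw [hR, hρ, hm, pow_add, mul_comm ((3 : ℝ) ^ (42 * k)), mul_assoc, floor_div]
  have h3 : (0 : ℤ) < 3 ^ (11 * k) := by positivity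
  have hv0 := Int.emod_nonneg R h3.ne'
  have hv1 := Int.emod_lt_of_pos R h3
  obtain ⟨v, hv⟩ := Int.eq_ofNat_of_zero_le hv0
  have hRv : R = 3 ^ (11 * k) * ρ + v := by
    rw [← hv, ← hdiv]; exact (Int.mul_ediv_add_emod R _).symm
  have hRR : RR k (j, r, v) = R := by
    unfold RR
    rw [hRv, hr]
    simp
  have hcnt : SS Y (53 * k) = SS Y (42 * k) + cnt (11 * k) (v : ℤ) := by
    rw [hm, SS_split, ← hm, ← hR, hRv, cnt_mul_add]
  refine ⟨(j, r, v), ?_, ?_⟩
  · unfold good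
    rw [Finset.mem_filter]
    refine ⟨?_, ?_, ?_⟩
    · rw [Finset.mem_product, Finset.mem_product]
      refine ⟨Finset.mem_range.2 hj, hrQ, Finset.mem_range.2 ?_⟩
      have : (v : ℤ) < ((3 ^ (11 * k) : ℕ) : ℤ) := by rw [← hv]; push_cast; exact hv1
      exact_mod_cast this
    · exact row_ok _ ha _ (Nat.mod_lt _ (by norm_num)) _ hrQ r1 r2
    · have e1 : pp (42 * k) j + r = ρ := by rw [hr]; ring
      show 42 * cnt (11 * k) (v : ℤ) ≤ 11 * cnt (42 * k) (pp (42 * k) j + r) + k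
      rw [e1]
      have e2 : cnt (42 * k) ρ = SS Y (42 * k) := rfl
      rw [e2]
      omega
  · unfold cell
    rw [hRR]
    have h4 : (0 : ℝ) < 4 ^ (42 * k) := by positivity
    have h3' : (0 : ℝ) < 3 ^ (53 * k) := by positivity
    have hc : (0 : ℝ) ≤ Real.sqrt 3 / 2 := by positivity
    refine ⟨⟨?_, ?_⟩, ?_, ?_⟩
    · show (j : ℝ) / 4 ^ (42 * k) ≤ t
      rw [div_le_iff₀ h4]; linarith
    · show t ≤ ((j : ℝ) + 1) / 4 ^ (42 * k)
      rw [le_div_iff₀ h4]; linarith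
    · show Real.sqrt 3 / 2 * ((R : ℝ) / 3 ^ (53 * k)) ≤ y t
      rw [hyY]
      apply mul_le_mul_of_nonneg_left _ hc
      rw [div_le_iff₀ h3', mul_comm]
      exact Int.floor_le _
    · show y t ≤ Real.sqrt 3 / 2 * (((R : ℝ) + 1) / 3 ^ (53 * k))
      rw [hyY]
      apply mul_le_mul_of_nonneg_left _ hc
      rw [le_div_iff₀ h3', mul_comm]
      exact (Int.lt_floor_add_one _).le

theorem cell_diam (k : ℕ) (q : ℕ × ℤ × ℕ) :
    Metric.ediam (cell k q) ≤ ENNReal.ofReal ((1 / 4 ^ 42) ^ k) := by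
  apply Metric.ediam_le
  rintro ⟨a, b⟩ ⟨⟨ha0, ha1⟩, hb0, hb1⟩ ⟨c, d⟩ ⟨⟨hc0, hc1⟩, hd0, hd1⟩
  rw [edist_dist]
  apply ENNReal.ofReal_le_ofReal
  rw [Prod.dist_eq]
  have e1 : (1 / 4 ^ 42 : ℝ) ^ k = 1 / 4 ^ (42 * k) := by rw [one_div_pow, pow_mul]
  apply max_le
  · show dist a c ≤ _
    rw [Real.dist_eq, e1]
    simp only at ha0 ha1 hc0 hc1
    have : ((q.1 : ℝ) + 1) / 4 ^ (42 * k) = (q.1 : ℝ) / 4 ^ (42 * k) + 1 / 4 ^ (42 * k) := by ring
    rw [abs_le]
    constructor <;> linarith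
  · show dist b d ≤ _
    rw [Real.dist_eq]
    simp only at hb0 hb1 hd0 hd1
    have h2 : Real.sqrt 3 / 2 * (((RR k q : ℝ) + 1) / 3 ^ (53 * k))
        = Real.sqrt 3 / 2 * ((RR k q : ℝ) / 3 ^ (53 * k)) + Real.sqrt 3 / 2 * (1 / 3 ^ (53 * k)) := by
      ring
    have h3 : Real.sqrt 3 / 2 ≤ 1 := by
      have : Real.sqrt 3 ≤ 2 := by
        rw [Real.sqrt_le_left (by norm_num)]; norm_num
      linarith
    have h4 : (1 : ℝ) / 3 ^ (53 * k) ≤ (1 / 4 ^ 42) ^ k := by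
      rw [pow_mul, ← one_div_pow]
      apply pow_le_pow_left₀ (by positivity)
      norm_num
    have h5 : Real.sqrt 3 / 2 * (1 / 3 ^ (53 * k)) ≤ (1 / 4 ^ 42) ^ k := by
      have : (0 : ℝ) ≤ 1 / 3 ^ (53 * k) := by positivity
      nlinarith
    rw [abs_le]
    constructor <;> linarith

/-- the exponent -/
noncomputable def s0 : ℝ := Real.log (533 / 100) / Real.log 4

theorem s0_pos : 0 < s0 := by
  unfold s0
  exact div_pos (Real.log_pos (by norm_num)) (Real.log_pos (by norm_num))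

theorem four_rpow : (4 : ℝ) ^ s0 = 533 / 100 := by
  unfold s0
  have h4 : (0 : ℝ) < Real.log 4 := Real.log_pos (by norm_num)
  rw [Real.rpow_def_of_pos (by norm_num), mul_div_cancel₀ _ h4.ne', Real.exp_log (by norm_num)]

theorem diam_pow (k : ℕ) : (ENNReal.ofReal ((1 / 4 ^ 42) ^ k)) ^ s0
    = ENNReal.ofReal ((1 / (533 / 100) ^ 42) ^ k) := by
  rw [ENNReal.ofReal_rpow_of_nonneg (by positivity) s0_pos.le]
  congr 1
  rw [← four_rpow, ← Real.rpow_natCast ((4 : ℝ) ^ s0), ← Real.rpow_natCast (4 : ℝ),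
    ← Real.rpow_natCast, ← Real.rpow_natCast, one_div, one_div, ← Real.rpow_neg (by norm_num),
    ← Real.rpow_mul (by norm_num), ← Real.rpow_mul (by norm_num), ← Real.rpow_mul (by norm_num),
    ← Real.rpow_neg (by norm_num), ← Real.rpow_mul (by norm_num)]
  congr 1
  ring

open MeasureTheory MeasureTheory.Measure in
theorem dim_le {y : ℝ → ℝ}
    (hy : ∀ t ∈ Set.Icc (0 : ℝ) 1, Tendsto (fun k => yk (Real.pi / 6) k t) atTop (𝓝 (y t))) :
    dimH ((fun t => (t, y t)) '' Set.Icc (0 : ℝ) 1) ≤ ENNReal.ofReal s0 := by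
  have hq0 := qq_pos
  have hq1 := qq_lt
  set G := (fun t => (t, y t)) '' Set.Icc (0 : ℝ) 1 with hG
  have hr4 : Tendsto (fun N : ℕ => ENNReal.ofReal ((1 / 4 ^ 42 : ℝ) ^ N)) atTop (𝓝 0) := by
    have h1 : Tendsto (fun N : ℕ => (1 / 4 ^ 42 : ℝ) ^ N) atTop (𝓝 0) :=
      tendsto_pow_atTop_nhds_zero_of_lt_one (by positivity) (by norm_num)
    have := (ENNReal.continuous_ofReal.tendsto 0).comp h1
    rw [ENNReal.ofReal_zero] at this
    exact this
  have hmeas : μH[s0] G ≤ liminf (fun N : ℕ => ∑' i : (Σ k : ℕ, {q // q ∈ good (N + k)}),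
      Metric.ediam (cell (N + i.1) i.2.1) ^ s0) atTop := by
    apply hausdorffMeasure_le_liminf_tsum (ι := fun N : ℕ => Σ k : ℕ, {q // q ∈ good (N + k)})
      s0 G (fun N => ENNReal.ofReal ((1 / 4 ^ 42 : ℝ) ^ N)) hr4
      (fun N i => cell (N + i.1) i.2.1)
    · refine Eventually.of_forall fun N i => ?_
      refine (cell_diam _ _).trans (ENNReal.ofReal_le_ofReal ?_)
      exact pow_le_pow_of_le_one (by positivity) (by norm_num) (Nat.le_add_right _ _)
    · refine Eventually.of_forall fun N => ?_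
      rintro p ⟨t, ht, rfl⟩
      obtain ⟨k, hk, q, hq, hm⟩ := exists_cell ht (hy t ht) N
      obtain ⟨d, rfl⟩ := Nat.exists_eq_add_of_le hk
      rw [Set.mem_iUnion]
      exact ⟨⟨d, ⟨q, hq⟩⟩, hm⟩
  have hsum : ∀ N : ℕ, ∑' i : (Σ k : ℕ, {q // q ∈ good (N + k)}),
      Metric.ediam (cell (N + i.1) i.2.1) ^ s0 ≤ ENNReal.ofReal (824 * qq ^ N * (1 - qq)⁻¹) := by
    intro N
    rw [ENNReal.tsum_sigma (fun k (q : {q // q ∈ good (N + k)}) =>
      Metric.ediam (cell (N + k) q.1) ^ s0)]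
    calc ∑' k, ∑' q : {q // q ∈ good (N + k)}, Metric.ediam (cell (N + k) q.1) ^ s0
        ≤ ∑' k, ENNReal.ofReal (824 * qq ^ N * qq ^ k) := by
          apply ENNReal.tsum_le_tsum
          intro k
          calc ∑' q : {q // q ∈ good (N + k)}, Metric.ediam (cell (N + k) q.1) ^ s0
              ≤ ∑' q : {q // q ∈ good (N + k)},
                ENNReal.ofReal ((1 / (533 / 100) ^ 42) ^ (N + k)) := by
                apply ENNReal.tsum_le_tsum
                intro q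
                rw [← diam_pow]
                exact ENNReal.rpow_le_rpow (cell_diam _ _) s0_pos.le
            _ = ENNReal.ofReal ((good (N + k)).card * (1 / (533 / 100) ^ 42) ^ (N + k)) := by
                rw [tsum_fintype, Finset.sum_const, nsmul_eq_mul, Finset.card_univ,
                  Fintype.card_coe, ENNReal.ofReal_mul (by positivity), ENNReal.ofReal_natCast]
            _ ≤ ENNReal.ofReal (824 * qq ^ N * qq ^ k) := by
                apply ENNReal.ofReal_le_ofReal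
                rw [mul_assoc, ← pow_add]
                exact good_sum _
      _ = ENNReal.ofReal (824 * qq ^ N * (1 - qq)⁻¹) := by
          rw [← ENNReal.ofReal_tsum_of_nonneg (fun k => by positivity)
            ((summable_geometric_of_lt_one hq0.le hq1).mul_left _), tsum_mul_left,
            tsum_geometric_of_lt_one hq0.le hq1]
  have hlim : Tendsto (fun N : ℕ => ENNReal.ofReal (824 * qq ^ N * (1 - qq)⁻¹)) atTop (𝓝 0) := by
    have h1 : Tendsto (fun N : ℕ => 824 * qq ^ N * (1 - qq)⁻¹) atTop (𝓝 0) := by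
      have := ((tendsto_pow_atTop_nhds_zero_of_lt_one hq0.le hq1).const_mul 824).mul_const
        (1 - qq)⁻¹
      simpa using this
    have := (ENNReal.continuous_ofReal.tendsto 0).comp h1
    rw [ENNReal.ofReal_zero] at this
    exact this
  have hzero : μH[s0] G = 0 := by
    apply le_antisymm _ zero_le
    refine hmeas.trans ?_
    rw [← hlim.liminf_eq]
    exact liminf_le_liminf (Eventually.of_forall hsum)
  have hfin : μH[((s0.toNNReal : NNReal) : ℝ)] G ≠ ⊤ := by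
    rw [Real.coe_toNNReal _ s0_pos.le, hzero]
    exact ENNReal.zero_ne_top
  exact dimH_le_of_hausdorffMeasure_ne_top hfin

theorem s0_lt : s0 < 1 - Real.log (Real.cos (Real.pi / 6)) / Real.log 2 := by
  rw [Real.cos_pi_div_six]
  have h2 : (0 : ℝ) < Real.log 2 := Real.log_pos (by norm_num)
  have e1 : Real.log 4 = 2 * Real.log 2 := by
    rw [show (4 : ℝ) = 2 ^ 2 by norm_num, Real.log_pow]; norm_num
  have e2 : Real.log (Real.sqrt 3 / 2) = (1 / 2) * Real.log 3 - Real.log 2 := by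
    rw [Real.log_div (by positivity) (by norm_num), Real.log_sqrt (by norm_num)]
    ring
  have e3 : Real.log (16 / 3) = 4 * Real.log 2 - Real.log 3 := by
    rw [Real.log_div (by norm_num) (by norm_num), show (16 : ℝ) = 2 ^ 4 by norm_num, Real.log_pow]
    norm_num
  have e4 : 1 - Real.log (Real.sqrt 3 / 2) / Real.log 2 = Real.log (16 / 3) / Real.log 4 := by
    rw [e1, e2, e3]
    field_simp
    ring
  rw [e4]
  unfold s0
  apply div_lt_div_of_pos_right _ (by rw [e1]; positivity)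
  exact Real.log_lt_log (by norm_num) (by norm_num)

end Pool.Agent.R266.Dr
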