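import Mathlib
import Pool.Agent.H997R2.Steinitz

set_option autoImplicit false
open Filter Topology Finset

namespace Pool.Agent.R266.RS

/-- greedy choice of a subseries with prescribed nonnegative sum -/
theorem greedy (u : ℕ → ℝ) (hu0 : ∀ n, 0 ≤ u n) (hu : Tendsto u atTop (𝓝 0))
    (hns : ¬ Summable u) (j0 : ℕ) (a : ℝ) (ha : 0 ≤ a) :
    ∃ T : Set ℕ, (∀ n ∈ T, j0 ≤ n) ∧
      Tendsto (fun N => ∑ n ∈ range N, T.indicator u n) atTop (𝓝 a) := by
  classical
  let r : ℕ → ℝ := fun n => Nat.rec (motive := fun _ => ℝ) a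
    (fun (n : ℕ) (r : ℝ) => if j0 ≤ n ∧ u n ≤ r then r - u n else r) n
  have hr0 : r 0 = a := rfl
  have hrs : ∀ n, r (n + 1) = if j0 ≤ n ∧ u n ≤ r n then r n - u n else r n := fun n => rfl
  have hnn : ∀ n, 0 ≤ r n := by
    intro n
    induction n with
    | zero => rw [hr0]; exact ha
    | succ n ih =>
      rw [hrs]
      split_ifs with h
      · linarith [h.2]
      · exact ih
  have hanti : Antitone r := by
    apply antitone_nat_of_succ_le
    intro n
    rw [hrs]
    split_ifs with h
    · linarith [hu0 n]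
    · exact le_rfl
  have hbdd : BddBelow (Set.range r) := ⟨0, by rintro _ ⟨n, rfl⟩; exact hnn n⟩
  have hlim := tendsto_atTop_ciInf hanti hbdd
  set l := ⨅ n, r n with hl
  have hl0 : l = 0 := by
    by_contra hne
    have hlnn : 0 ≤ l := le_ciInf hnn
    have hlpos : 0 < l := lt_of_le_of_ne hlnn (Ne.symm hne)
    obtain ⟨n0, hn0⟩ := eventually_atTop.1 (hu.eventually (eventually_lt_nhds hlpos))
    let n1 := max n0 j0
    have hstep : ∀ k, ∑ i ∈ range k, u (i + n1) = r n1 - r (n1 + k) := by
      intro k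
      induction k with
      | zero => simp
      | succ k ih =>
        rw [Finset.sum_range_succ, ih]
        have h1 : r (n1 + k + 1) = r (n1 + k) - u (n1 + k) := by
          rw [hrs, if_pos]
          refine ⟨by omega, ?_⟩
          have h2 := hn0 (n1 + k) (by omega)
          have h3 : l ≤ r (n1 + k) := ciInf_le hbdd _
          linarith
        rw [← add_assoc n1 k 1, h1, add_comm k n1]
        ring
    apply hns
    rw [← summable_nat_add_iff n1]
    refine summable_of_sum_range_le (c := r n1) (fun n => hu0 _) ?_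
    intro k
    rw [hstep k]
    linarith [hnn (n1 + k)]
  refine ⟨{n | j0 ≤ n ∧ u n ≤ r n}, fun n hn => hn.1, ?_⟩
  have hsum : ∀ N, ∑ n ∈ range N, ({n | j0 ≤ n ∧ u n ≤ r n} : Set ℕ).indicator u n = a - r N := by
    intro N
    induction N with
    | zero => simp [hr0]
    | succ N ih =>
      rw [Finset.sum_range_succ, ih, hrs]
      by_cases h : j0 ≤ N ∧ u N ≤ r N
      · rw [if_pos h, Set.indicator_of_mem (show N ∈ {n | j0 ≤ n ∧ u n ≤ r n} from h)]
        ring
      · rw [if_neg h, Set.indicator_of_notMem (show N ∉ {n | j0 ≤ n ∧ u n ≤ r n} from h)]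
        ring
  simp_rw [hsum]
  rw [hl0] at hlim
  simpa using tendsto_const_nhds.sub hlim

variable {V : Type*} [NormedAddCommGroup V]

theorem sum_range_mul (f : ℕ → V) (L J : ℕ) :
    ∑ n ∈ range (L * J), f n = ∑ j ∈ range J, ∑ i ∈ range L, f (L * j + i) := by
  induction J with
  | zero => simp
  | succ J ih =>
    rw [Finset.sum_range_succ, ← ih, Nat.mul_succ, Finset.sum_range_add]

/-- convergence along complete groups -/
theorem cyc (f : ℕ → V) (s : V) (L : ℕ) (hL : 0 < L) (hf : Tendsto f atTop (𝓝 0))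
    (hg : Tendsto (fun J => ∑ j ∈ range J, ∑ i ∈ range L, f (L * j + i)) atTop (𝓝 s)) :
    Tendsto (fun N => ∑ n ∈ range N, f n) atTop (𝓝 s) := by
  have hdiv : Tendsto (fun N : ℕ => N / L) atTop atTop := by
    apply Nat.tendsto_div_const_atTop
    omega
  have h1 : Tendsto (fun N : ℕ => ∑ n ∈ range (L * (N / L)), f n) atTop (𝓝 s) := by
    simp_rw [sum_range_mul]
    exact hg.comp hdiv
  have h2 : Tendsto (fun N : ℕ => ∑ i ∈ range L, ‖f (L * (N / L) + i)‖) atTop (𝓝 0) := by
    have h3 : ∀ i ∈ range L, Tendsto (fun N : ℕ => ‖f (L * (N / L) + i)‖) atTop (𝓝 0) := by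
      intro i _
      have h4 : Tendsto (fun N : ℕ => L * (N / L) + i) atTop atTop := by
        refine tendsto_atTop_mono (fun N => ?_) hdiv
        have : N / L ≤ L * (N / L) := Nat.le_mul_of_pos_left _ hL
        omega
      have := (hf.comp h4).norm
      simpa using this
    have := tendsto_finsetSum (range L) h3
    simpa using this
  have h5 : ∀ N : ℕ, ‖∑ n ∈ range N, f n - ∑ n ∈ range (L * (N / L)), f n‖
      ≤ ∑ i ∈ range L, ‖f (L * (N / L) + i)‖ := by
    intro N
    have h6 : ∑ n ∈ range N, f n = ∑ n ∈ range (L * (N / L)), f n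
        + ∑ i ∈ range (N % L), f (L * (N / L) + i) := by
      conv_lhs => rw [← Nat.div_add_mod N L]
      rw [Finset.sum_range_add]
    rw [h6, add_sub_cancel_left]
    refine (norm_sum_le _ _).trans ?_
    apply Finset.sum_le_sum_of_subset_of_nonneg
    · intro i hi
      rw [Finset.mem_range] at hi ⊢
      exact hi.trans (Nat.mod_lt _ hL)
    · intro i _ _
      exact norm_nonneg _
  have h7 : Tendsto (fun N : ℕ => ∑ n ∈ range N, f n - ∑ n ∈ range (L * (N / L)), f n)
      atTop (𝓝 0) := squeeze_zero_norm h5 h2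
  have := h7.add h1
  simpa using this

/-- sorting by a key with finite fibres -/
theorem exists_sort (key : ℕ → ℕ) (hfin : ∀ k, {n | key n = k}.Finite) :
    ∃ σ : Equiv.Perm ℕ, Monotone (key ∘ σ) := by
  classical
  have hC : ∀ k, ∃ C : ℕ, ∀ n, key n = k → n < C := by
    intro k
    obtain ⟨C, hC⟩ := (hfin k).bddAbove
    exact ⟨C + 1, fun n hn => Nat.lt_succ_of_le (hC hn)⟩
  choose C hC using hC
  let B : ℕ → ℕ := fun k => ∑ i ∈ range k, C i
  have hB : Monotone B := fun a b hab =>
    Finset.sum_le_sum_of_subset (Finset.range_mono hab)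
  let φ : ℕ → ℕ := fun n => B (key n) + n
  have hlt : ∀ n m, key n < key m → φ n < φ m := by
    intro n m h
    have h1 : φ n < B (key n + 1) := by
      show B (key n) + n < ∑ i ∈ range (key n + 1), C i
      rw [Finset.sum_range_succ]
      have := hC (key n) n rfl
      show ∑ i ∈ range (key n), C i + n < _
      omega
    have h2 : B (key n + 1) ≤ B (key m) := hB h
    show φ n < B (key m) + m
    omega
  have hinj : Function.Injective φ := by
    intro n m h
    rcases lt_trichotomy (key n) (key m) with h1 | h1 | h1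
    · exact absurd h (hlt n m h1).ne
    · have h2 : B (key n) + n = B (key m) + m := h
      rw [h1] at h2
      omega
    · exact absurd h (hlt m n h1).ne'
  have hinf : (Set.range φ).Infinite := Set.infinite_range_of_injective hinj
  have : Infinite (Set.range φ) := hinf.to_subtype
  let e : ℕ ≃o Set.range φ := Nat.Subtype.orderIsoOfNat (Set.range φ)
  let g : ℕ ≃ Set.range φ := Equiv.ofInjective φ hinj
  refine ⟨e.toEquiv.trans g.symm, ?_⟩
  intro a b hab
  have hφ : ∀ n, φ (g.symm (e n)) = (e n : ℕ) := by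
    intro n
    exact Equiv.apply_ofInjective_symm hinj (e n)
  show key (g.symm (e a)) ≤ key (g.symm (e b))
  by_contra hc
  push Not at hc
  have h1 := hlt _ _ hc
  rw [hφ, hφ] at h1
  have h2 : e a ≤ e b := e.monotone hab
  have h3 : (e a : ℕ) ≤ (e b : ℕ) := h2
  omega

theorem map_sum_range (x : ℕ → V) (e : ℕ → ℕ) (N : ℕ) :
    (((List.range N).map e).map x).sum = ∑ n ∈ range N, x (e n) := by
  induction N with
  | zero => simp
  | succ N ih =>
    rw [List.range_succ, List.map_append, List.map_append, List.sum_append, ih,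
      Finset.sum_range_succ]
    simp

theorem exists_perm_of_lists (x : ℕ → V) (s : V) (P : ℕ → List ℕ)
    (hpre : ∀ j, P j <+: P (j + 1)) (hnd : ∀ j, (P j).Nodup) (hcov : ∀ n, ∃ j, n ∈ P j)
    (ε : ℕ → ℝ) (hε : Tendsto ε atTop (𝓝 0)) (hlen : ∀ j, (P j).length < (P (j + 1)).length)
    (hb : ∀ j N, (P j).length ≤ N → N ≤ (P (j + 1)).length →
      ‖(((P (j + 1)).take N).map x).sum - s‖ ≤ ε j) :
    ∃ σ : Equiv.Perm ℕ, Tendsto (fun N => ∑ n ∈ range N, x (σ n)) atTop (𝓝 s) := by
  have hlen' : ∀ j, j ≤ (P j).length := by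
    intro j
    induction j with
    | zero => omega
    | succ j ih => have := hlen j; omega
  have hpre' : ∀ i j, i ≤ j → P i <+: P j := by
    intro i j hij
    induction hij with
    | refl => exact List.prefix_refl _
    | step _ ih => exact ih.trans (hpre _)
  let e : ℕ → ℕ := fun n => (P (n + 1)).getD n 0
  have he : ∀ j n (h : n < (P j).length), (P j)[n] = e n := by
    intro j n h
    have h1 : n < (P (n + 1)).length := lt_of_lt_of_le (Nat.lt_succ_self n) (hlen' (n + 1))
    have h2 : e n = (P (n + 1))[n] := List.getD_eq_getElem _ _ h1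
    rw [h2]
    rcases le_total j (n + 1) with hle | hle
    · exact (List.IsPrefix.getElem (hpre' _ _ hle) h)
    · exact (List.IsPrefix.getElem (hpre' _ _ hle) h1).symm
  have hinj : Function.Injective e := by
    intro a b hab
    let j := max a b + 1
    have ha : a < (P j).length := lt_of_lt_of_le (by omega : a < j) (hlen' j)
    have hb' : b < (P j).length := lt_of_lt_of_le (by omega : b < j) (hlen' j)
    rw [← he j a ha, ← he j b hb'] at hab
    exact (List.Nodup.getElem_inj_iff (hnd j)).1 hab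
  have hsurj : Function.Surjective e := by
    intro n
    obtain ⟨j, hj⟩ := hcov n
    obtain ⟨i, hi, hin⟩ := List.getElem_of_mem hj
    exact ⟨i, by rw [← he j i hi, hin]⟩
  have htake : ∀ j N, N ≤ (P j).length → (P j).take N = (List.range N).map e := by
    intro j N hN
    apply List.ext_getElem
    · simp [hN]
    · intro i h1 h2
      simp only [List.getElem_take, List.getElem_map, List.getElem_range]
      exact he j i _
  refine ⟨Equiv.ofBijective e ⟨hinj, hsurj⟩, ?_⟩
  show Tendsto (fun N => ∑ n ∈ range N, x (e n)) atTop (𝓝 s)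
  rw [Metric.tendsto_atTop]
  intro δ hδ
  obtain ⟨j0, hj0⟩ := eventually_atTop.1 (hε.eventually (eventually_lt_nhds hδ))
  refine ⟨(P j0).length, fun N hN => ?_⟩
  have hex : ∃ j, j0 ≤ j ∧ N ≤ (P (j + 1)).length := by
    refine ⟨max j0 N, le_max_left _ _, ?_⟩
    have := hlen' (max j0 N + 1)
    have := le_max_right j0 N
    omega
  classical
  let j := Nat.find hex
  have hj := Nat.find_spec hex
  have hjlow : (P j).length ≤ N := by
    rcases eq_or_lt_of_le hj.1 with h | h
    · show (P (Nat.find hex)).length ≤ N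
      rw [← h]; exact hN
    · have h1 : Nat.find hex - 1 < Nat.find hex := by omega
      have h2 := Nat.find_min hex h1
      push Not at h2
      have h3 := h2 (by omega)
      have h4 : Nat.find hex - 1 + 1 = Nat.find hex := by omega
      rw [h4] at h3
      exact h3.le
  have h1 := hb j N hjlow hj.2
  rw [htake _ _ hj.2, map_sum_range] at h1
  rw [dist_eq_norm]
  exact lt_of_le_of_lt h1 (hj0 j hj.1)

open Pool.Agent.Helper829.Stz in
/-- a finite family can be listed with controlled partial sums -/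
theorem segment [NormedSpace ℝ V] [FiniteDimensional ℝ V] (x : ℕ → V) (D : Finset ℕ) (R : ℝ)
    (hR0 : 0 ≤ R) (hR : ∀ i ∈ D, ‖x i‖ ≤ R) :
    ∃ L : List ℕ, L.Nodup ∧ L.toFinset = D ∧ ∀ k ≤ L.length,
      ‖((L.take k).map x).sum‖ ≤ (Module.finrank ℝ V : ℝ) * (R + ‖∑ i ∈ D, x i‖)
        + ‖∑ i ∈ D, x i‖ := by
  classical
  set w := ∑ i ∈ D, x i with hw
  rcases D.eq_empty_or_nonempty with hD | hD
  · refine ⟨[], List.nodup_nil, by simp [hD], ?_⟩
    intro k _
    simp
    positivity
  have hc : (0 : ℝ) < D.card := by exact_mod_cast hD.card_pos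
  have hc1 : (1 : ℝ) ≤ D.card := by exact_mod_cast hD.card_pos
  let u : ℕ → V := fun i => x i - (1 / (D.card : ℝ)) • w
  have hN : Sn (fun v : V => ‖v‖) := ⟨norm_add_le, fun c x => by rw [norm_smul, Real.norm_eq_abs]⟩
  have hun : ∀ i ∈ D, ‖u i‖ ≤ R + ‖w‖ := by
    intro i hi
    refine (norm_sub_le _ _).trans ?_
    apply add_le_add (hR i hi)
    rw [norm_smul, Real.norm_eq_abs, abs_of_nonneg (by positivity)]
    have : 1 / (D.card : ℝ) ≤ 1 := by rw [div_le_one hc]; exact hc1
    nlinarith [norm_nonneg w]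
  have hsumu : ∀ E : Finset ℕ, ∑ i ∈ E, u i = ∑ i ∈ E, x i - ((E.card : ℝ) / D.card) • w := by
    intro E
    show ∑ i ∈ E, (x i - (1 / (D.card : ℝ)) • w) = _
    rw [Finset.sum_sub_distrib, Finset.sum_const, ← Nat.cast_smul_eq_nsmul ℝ, smul_smul]
    congr 2
    ring
  have hch := Pool.Agent.H997R2.Stz.gsd (N := fun v : V => ‖v‖) (Module.finrank ℝ V) rfl hN u
    (R + ‖w‖) (by positivity) D hun ⟨fun _ => 1, fun _ _ => by norm_num, by
      simp only [one_smul]
      rw [hsumu D, ← hw, div_self hc.ne', one_smul, sub_self], by simp⟩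
  obtain ⟨L, hL, hLD, hk⟩ := hch.exists_list
  refine ⟨L, hL, hLD, ?_⟩
  intro k hkL
  have hnd : (L.take k).Nodup := hL.sublist (List.take_sublist _ _)
  have hls : ((L.take k).map x).sum = ∑ i ∈ (L.take k).toFinset, x i :=
    (List.sum_toFinset x hnd).symm
  rw [hls]
  rcases hkL.lt_or_eq with hlt | heq
  · have h1 : ‖∑ i ∈ (L.take k).toFinset, u i‖ ≤ (Module.finrank ℝ V : ℝ) * (R + ‖w‖) := hk k hlt
    rw [hsumu] at h1
    have h2 : ‖(((L.take k).toFinset.card : ℝ) / D.card) • w‖ ≤ ‖w‖ := by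
      rw [norm_smul, Real.norm_eq_abs, abs_of_nonneg (by positivity)]
      have h3 : (((L.take k).toFinset.card : ℝ) / D.card) ≤ 1 := by
        rw [div_le_one hc]
        have : (L.take k).toFinset ⊆ D := by
          rw [← hLD]
          intro a ha
          rw [List.mem_toFinset] at ha ⊢
          exact List.mem_of_mem_take ha
        exact_mod_cast Finset.card_le_card this
      nlinarith [norm_nonneg w]
    calc ‖∑ i ∈ (L.take k).toFinset, x i‖
        = ‖(∑ i ∈ (L.take k).toFinset, x i - (((L.take k).toFinset.card : ℝ) / D.card) • w)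
            + (((L.take k).toFinset.card : ℝ) / D.card) • w‖ := by rw [sub_add_cancel]
      _ ≤ _ := (norm_add_le _ _).trans (add_le_add h1 h2)
  · rw [heq, List.take_length, hLD, ← hw]
    have : 0 ≤ (Module.finrank ℝ V : ℝ) * (R + ‖w‖) := by positivity
    linarith

/-- a rearrangement converging to a prescribed sum -/
theorem exists_rearrangement [NormedSpace ℝ V] [FiniteDimensional ℝ V] (x : ℕ → V) (s : V)
    (hx : Tendsto x atTop (𝓝 0))
    (h : ∀ n0 : ℕ, ∀ ε > 0, ∃ n ≥ n0, ∃ G : Finset ℕ, (∀ g ∈ G, n ≤ g) ∧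
      ‖∑ i ∈ range n, x i + ∑ i ∈ G, x i - s‖ < ε) :
    ∃ σ : Equiv.Perm ℕ, Tendsto (fun N => ∑ n ∈ range N, x (σ n)) atTop (𝓝 s) := by
  classical
  let δ : ℕ → ℝ := fun j => 1 / ((j : ℝ) + 1)
  have hδ : ∀ j, 0 < δ j := fun j => by positivity
  have hδa : ∀ j, δ (j + 1) ≤ δ j := by
    intro j
    show 1 / (((j + 1 : ℕ) : ℝ) + 1) ≤ 1 / ((j : ℝ) + 1)
    apply one_div_le_one_div_of_le (by positivity)
    push_cast; linarith
  let Inv : ℕ → List ℕ × ℕ → Prop := fun j S => S.1.Nodup ∧ (∀ i < S.2, i ∈ S.1) ∧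
    (∀ i ≥ S.2, ‖x i‖ ≤ δ j) ∧ ‖(S.1.map x).sum - s‖ ≤ δ j ∧ j ≤ S.2
  let C : ℝ := 3 * (Module.finrank ℝ V : ℝ) + 3
  let Rel : ℕ → List ℕ × ℕ → List ℕ × ℕ → Prop := fun j S S' => S.1 <+: S'.1 ∧
    S.1.length < S'.1.length ∧ ∀ N, S.1.length ≤ N → N ≤ S'.1.length →
      ‖((S'.1.take N).map x).sum - s‖ ≤ C * δ j
  -- the construction of one stage from finite data
  have key : ∀ (j : ℕ) (P : List ℕ) (n : ℕ) (ρ : ℝ), P.Nodup → (∀ i < n, i ∈ P) →
      (∀ i ≥ n, ‖x i‖ ≤ ρ) → 0 ≤ ρ →
      ∃ S' : List ℕ × ℕ, Inv j S' ∧ P <+: S'.1 ∧ P.length < S'.1.length ∧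
        ∀ N, P.length ≤ N → N ≤ S'.1.length →
        ‖((S'.1.take N).map x).sum - s‖ ≤ ‖(P.map x).sum - s‖
          + ((Module.finrank ℝ V : ℝ) * (ρ + (δ j + ‖(P.map x).sum - s‖))
            + (δ j + ‖(P.map x).sum - s‖)) := by
    intro j P n ρ hP hPn hxn hρ
    obtain ⟨n1, hn1⟩ := eventually_atTop.1
      ((hx.norm.congr (fun _ => rfl)).eventually (eventually_lt_nhds (b := δ j) (by simpa using hδ j)))
    let m := P.toFinset.sup id + 1
    have hm : ∀ i ∈ P, i < m := by
      intro i hi
      have : id i ≤ P.toFinset.sup id := Finset.le_sup (List.mem_toFinset.2 hi)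
      show i < P.toFinset.sup id + 1
      simp only [id] at this
      exact Nat.lt_succ_of_le this
    obtain ⟨n', hn', G, hG, hs⟩ := h (max (max (m + 1) n1) (max (n + 1) j)) (δ j) (hδ j)
    have hn'1 : m + 1 ≤ n' := by omega
    have hn'2 : n1 ≤ n' := by omega
    have hn'3 : n + 1 ≤ n' := by omega
    have hn'4 : j ≤ n' := by omega
    let U : Finset ℕ := range n' ∪ G
    have hPU : P.toFinset ⊆ U := by
      intro i hi
      have := hm i (List.mem_toFinset.1 hi)
      exact Finset.mem_union_left _ (Finset.mem_range.2 (by omega))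
    let D : Finset ℕ := U \ P.toFinset
    have hDx : ∀ i ∈ D, ‖x i‖ ≤ ρ := by
      intro i hi
      apply hxn
      by_contra hc
      push Not at hc
      exact (Finset.mem_sdiff.1 hi).2 (List.mem_toFinset.2 (hPn i hc))
    obtain ⟨L, hL, hLD, hk⟩ := segment x D ρ hρ hDx
    have hUsum : ∑ i ∈ U, x i = ∑ i ∈ range n', x i + ∑ i ∈ G, x i := by
      apply Finset.sum_union
      rw [Finset.disjoint_left]
      intro a ha hb
      have h1 := Finset.mem_range.1 ha
      have h2 := hG a hb
      omega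
    have hPs : (P.map x).sum = ∑ i ∈ P.toFinset, x i := (List.sum_toFinset x hP).symm
    have hDs : ∑ i ∈ D, x i = ∑ i ∈ U, x i - (P.map x).sum := by
      rw [hPs, eq_sub_iff_add_eq]
      exact Finset.sum_sdiff hPU
    have hLs : (L.map x).sum = ∑ i ∈ D, x i := by
      rw [← hLD]; exact (List.sum_toFinset x hL).symm
    have hwn : ‖∑ i ∈ D, x i‖ ≤ δ j + ‖(P.map x).sum - s‖ := by
      rw [hDs, hUsum]
      calc ‖∑ i ∈ range n', x i + ∑ i ∈ G, x i - (P.map x).sum‖
          = ‖(∑ i ∈ range n', x i + ∑ i ∈ G, x i - s) - ((P.map x).sum - s)‖ := by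
            congr 1; abel
        _ ≤ _ := (norm_sub_le _ _).trans (by linarith [hs.le])
    refine ⟨(P ++ L, n'), ⟨?_, ?_, ?_, ?_, hn'4⟩, List.prefix_append _ _, ?_, ?_⟩
    · show (P ++ L).Nodup
      rw [List.nodup_append]
      refine ⟨hP, hL, ?_⟩
      intro a ha b hb hab
      subst hab
      have : a ∈ L.toFinset := List.mem_toFinset.2 hb
      rw [hLD] at this
      exact (Finset.mem_sdiff.1 this).2 (List.mem_toFinset.2 ha)
    · intro i hi
      show i ∈ P ++ L
      rw [List.mem_append]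
      by_cases hiP : i ∈ P
      · exact Or.inl hiP
      · right
        have : i ∈ D := Finset.mem_sdiff.2 ⟨Finset.mem_union_left _ (Finset.mem_range.2 hi),
          fun hc => hiP (List.mem_toFinset.1 hc)⟩
        rw [← hLD] at this
        exact List.mem_toFinset.1 this
    · intro i hi
      exact (hn1 i (le_trans hn'2 hi)).le
    · show ‖((P ++ L).map x).sum - s‖ ≤ δ j
      rw [List.map_append, List.sum_append, hLs, hDs, add_sub_cancel, hUsum]
      exact hs.le
    · show P.length < (P ++ L).length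
      rw [List.length_append]
      have hmD : m ∈ D := by
        refine Finset.mem_sdiff.2 ⟨Finset.mem_union_left _ (Finset.mem_range.2 (by omega)), ?_⟩
        intro hc
        exact lt_irrefl _ (hm m (List.mem_toFinset.1 hc))
      rw [← hLD] at hmD
      have := List.length_pos_of_mem (List.mem_toFinset.1 hmD)
      omega
    · intro N hN1 hN2
      replace hN2 : N ≤ (P ++ L).length := hN2
      show ‖(((P ++ L).take N).map x).sum - s‖ ≤ _
      rw [List.length_append] at hN2
      rw [List.take_append, List.take_of_length_le hN1, List.map_append, List.sum_append]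
      have h1 := hk (N - P.length) (by omega)
      calc ‖(P.map x).sum + ((L.take (N - P.length)).map x).sum - s‖
          = ‖((P.map x).sum - s) + ((L.take (N - P.length)).map x).sum‖ := by congr 1; abel
        _ ≤ ‖(P.map x).sum - s‖ + ‖((L.take (N - P.length)).map x).sum‖ := norm_add_le _ _
        _ ≤ _ := by
          apply add_le_add le_rfl
          refine h1.trans ?_
          have : (Module.finrank ℝ V : ℝ) * (ρ + ‖∑ i ∈ D, x i‖)
              ≤ (Module.finrank ℝ V : ℝ) * (ρ + (δ j + ‖(P.map x).sum - s‖)) := by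
            apply mul_le_mul_of_nonneg_left _ (Nat.cast_nonneg _)
            linarith
          linarith
  obtain ⟨R0, hR0⟩ : ∃ R0 : ℝ, ∀ i, ‖x i‖ ≤ R0 := by
    obtain ⟨R0, hR0⟩ := (Metric.isBounded_range_of_tendsto x hx).exists_norm_le
    exact ⟨R0, fun i => hR0 _ ⟨i, rfl⟩⟩
  obtain ⟨S0, hS0, -⟩ := key 0 [] 0 (max R0 0) List.nodup_nil (by simp)
    (fun i _ => (hR0 i).trans (le_max_left _ _)) (le_max_right _ _)
  have step : ∀ j (S : List ℕ × ℕ), Inv j S → ∃ S' : List ℕ × ℕ, Inv (j + 1) S' ∧ Rel j S S' := by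
    intro j S hS
    obtain ⟨h1, h2, h3, h4, h5⟩ := hS
    obtain ⟨S', hI, hp, hl, hb⟩ := key (j + 1) S.1 S.2 (δ j) h1 h2 h3 (hδ j).le
    refine ⟨S', hI, hp, hl, ?_⟩
    intro N hN1 hN2
    refine (hb N hN1 hN2).trans ?_
    have h6 := hδa j
    have hd : (0 : ℝ) ≤ (Module.finrank ℝ V : ℝ) := Nat.cast_nonneg _
    have h7 : (Module.finrank ℝ V : ℝ) * (δ j + (δ (j + 1) + ‖(S.1.map x).sum - s‖))
        ≤ (Module.finrank ℝ V : ℝ) * (3 * δ j) := by
      apply mul_le_mul_of_nonneg_left _ hd
      linarith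
    show _ ≤ (3 * (Module.finrank ℝ V : ℝ) + 3) * δ j
    nlinarith
  choose! F hF1 hF2 using step
  let S : ℕ → List ℕ × ℕ := fun j => Nat.rec (motive := fun _ => List ℕ × ℕ) S0
    (fun j S => F j S) j
  have hSs : ∀ j, S (j + 1) = F j (S j) := fun _ => rfl
  have hI : ∀ j, Inv j (S j) := by
    intro j
    induction j with
    | zero => exact hS0
    | succ j ih => rw [hSs]; exact hF1 j _ ih
  have hR : ∀ j, Rel j (S j) (S (j + 1)) := by
    intro j
    rw [hSs]; exact hF2 j _ (hI j)
  have hC : Tendsto (fun j => C * δ j) atTop (𝓝 0) := by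
    have := (tendsto_one_div_add_atTop_nhds_zero_nat (𝕜 := ℝ)).const_mul C
    rw [mul_zero] at this
    exact this
  refine exists_perm_of_lists x s (fun j => (S j).1) (fun j => (hR j).1) (fun j => (hI j).1) ?_
    (fun j => C * δ j) hC (fun j => (hR j).2.1) (fun j => (hR j).2.2)
  intro n
  refine ⟨n + 1, (hI (n + 1)).2.1 n ?_⟩
  have := (hI (n + 1)).2.2.2.2
  omega

end Pool.Agent.R266.RS
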