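import Mathlib

set_option autoImplicit false

/-!
# Chains of windows on which the partial sums of a Weierstrass type series are steep
-/

open Set

namespace Pool.Agent.R266.WC

/-- partial sums of the series -/
noncomputable def Phi (ρ B : ℝ) (f : ℝ → ℝ) (n : ℕ) (x : ℝ) : ℝ :=
  ∑ k ∈ Finset.range n, ρ ^ k * f (B ^ k * x)

/-- the slopes of the partial sum of order `n + 1` on the window of radius `R` about `c` (in the
coordinate `B ^ n * x`) lie between `lo * (ρ B) ^ (n + 1)` and `hi * (ρ B) ^ (n + 1)` -/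
def Slope (ρ B lo hi : ℝ) (f : ℝ → ℝ) (n : ℕ) (c R : ℝ) : Prop :=
  ∀ x x', x ≤ x' → |B ^ n * x - c| ≤ R → |B ^ n * x' - c| ≤ R →
    lo * (ρ * B) ^ (n + 1) * (x' - x) ≤ Phi ρ B f (n + 1) x' - Phi ρ B f (n + 1) x ∧
    Phi ρ B f (n + 1) x' - Phi ρ B f (n + 1) x ≤ hi * (ρ * B) ^ (n + 1) * (x' - x)

theorem Phi_succ (ρ B : ℝ) (f : ℝ → ℝ) (n : ℕ) (x : ℝ) :
    Phi ρ B f (n + 1) x = Phi ρ B f n x + ρ ^ n * f (B ^ n * x) := by
  unfold Phi
  rw [Finset.sum_range_succ]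

theorem Phi_neg (ρ B : ℝ) (f : ℝ → ℝ) (n : ℕ) (x : ℝ) :
    Phi ρ B (fun y => - f y) n x = - Phi ρ B f n x := by
  unfold Phi
  rw [← Finset.sum_neg_distrib]
  exact Finset.sum_congr rfl fun k _ => by ring

theorem Phi_cont (ρ B : ℝ) {f : ℝ → ℝ} (hf : Continuous f) (n : ℕ) :
    Continuous (Phi ρ B f n) := by
  unfold Phi
  fun_prop

theorem slope_zero {ρ B lo hi : ℝ} {f : ℝ → ℝ} {c R : ℝ}
    (h : ∀ t t', t ≤ t' → |t - c| ≤ R → |t' - c| ≤ R →
      lo * (ρ * B) * (t' - t) ≤ f t' - f t ∧ f t' - f t ≤ hi * (ρ * B) * (t' - t)) :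
    Slope ρ B lo hi f 0 c R := by
  intro x x' hxx hx hx'
  have e : ∀ z, Phi ρ B f (0 + 1) z = f z := by
    intro z
    simp [Phi]
  rw [e, e]
  rw [pow_zero, one_mul] at hx hx'
  simpa using h x x' hxx hx hx'

theorem slope_succ {ρ B lo hi θ : ℝ} (hρ : 0 < ρ) (hB : 1 < B) (hlam : ρ * B = 1 + θ)
    {f : ℝ → ℝ} (hper : Function.Periodic f 1) {n : ℕ} {c Rn rn cs R xn : ℝ} (m : ℤ)
    (hS : Slope ρ B lo hi f n c Rn) (hxn : |B ^ n * xn - c| ≤ rn)
    (hm : |(cs + m) - B ^ (n + 1) * xn| ≤ 1 / 2) (hR : R ≤ 1 / 2) (hrR : rn + 1 / B ≤ Rn)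
    (hp : ∀ t t', t ≤ t' → |t - cs| ≤ R → |t' - cs| ≤ R →
      θ * lo * (t' - t) ≤ f t' - f t ∧ f t' - f t ≤ θ * hi * (t' - t)) :
    Slope ρ B lo hi f (n + 1) (cs + m) R := by
  have hB0 : 0 < B := by linarith
  have win : ∀ z, |B ^ (n + 1) * z - (cs + m)| ≤ R → |B ^ n * z - c| ≤ Rn := by
    intro z hz
    have h1 : |B ^ (n + 1) * z - B ^ (n + 1) * xn| ≤ 1 := by
      have e : B ^ (n + 1) * z - B ^ (n + 1) * xn
          = (B ^ (n + 1) * z - (cs + m)) + ((cs + m) - B ^ (n + 1) * xn) := by ring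
      rw [e]
      exact (abs_add_le _ _).trans (by linarith)
    have h2 : |B ^ n * z - B ^ n * xn| ≤ 1 / B := by
      have e : B ^ (n + 1) * z - B ^ (n + 1) * xn = B * (B ^ n * z - B ^ n * xn) := by ring
      rw [e, abs_mul, abs_of_pos hB0] at h1
      rw [le_div_iff₀ hB0]
      linarith
    have e : B ^ n * z - c = (B ^ n * z - B ^ n * xn) + (B ^ n * xn - c) := by ring
    rw [e]
    exact (abs_add_le _ _).trans (by linarith)
  intro x x' hxx hx hx'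
  obtain ⟨h1, h2⟩ := hS x x' hxx (win x hx) (win x' hx')
  have hfm : ∀ z, f z = f (z - m) := by
    intro z
    have := hper.sub_int_mul_eq m (x := z)
    rw [mul_one] at this
    exact this.symm
  have e1 : ∀ z, |B ^ (n + 1) * z - m - cs| = |B ^ (n + 1) * z - (cs + m)| := by
    intro z; congr 1; ring
  have hBp : 0 < B ^ (n + 1) := pow_pos hB0 _
  obtain ⟨h3, h4⟩ := hp (B ^ (n + 1) * x - m) (B ^ (n + 1) * x' - m)
    (by nlinarith) (by rw [e1]; exact hx) (by rw [e1]; exact hx')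
  rw [← hfm, ← hfm] at h3 h4
  have hρp : 0 < ρ ^ (n + 1) := pow_pos hρ _
  have h5 := mul_le_mul_of_nonneg_left h3 hρp.le
  have h6 := mul_le_mul_of_nonneg_left h4 hρp.le
  have e5 : ρ ^ (n + 1) * (θ * lo * (B ^ (n + 1) * x' - m - (B ^ (n + 1) * x - m)))
      = θ * lo * (ρ * B) ^ (n + 1) * (x' - x) := by rw [mul_pow]; ring
  have e6 : ρ ^ (n + 1) * (θ * hi * (B ^ (n + 1) * x' - m - (B ^ (n + 1) * x - m)))
      = θ * hi * (ρ * B) ^ (n + 1) * (x' - x) := by rw [mul_pow]; ring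
  rw [e5] at h5
  rw [e6] at h6
  rw [Phi_succ ρ B f (n + 1) x', Phi_succ ρ B f (n + 1) x]
  have e7 : (ρ * B) ^ (n + 1 + 1) = (ρ * B) ^ (n + 1) + θ * (ρ * B) ^ (n + 1) := by
    rw [pow_succ, hlam]; ring
  rw [e7]
  constructor
  · calc lo * ((ρ * B) ^ (n + 1) + θ * (ρ * B) ^ (n + 1)) * (x' - x)
        = lo * (ρ * B) ^ (n + 1) * (x' - x) + θ * lo * (ρ * B) ^ (n + 1) * (x' - x) := by ring
      _ ≤ _ := by linarith
  · calc _ ≤ hi * (ρ * B) ^ (n + 1) * (x' - x) + θ * hi * (ρ * B) ^ (n + 1) * (x' - x) := by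
          linarith
      _ = _ := by ring

theorem slope_abs {ρ B lo hi : ℝ} {f : ℝ → ℝ} {n : ℕ} {c R : ℝ} (hlo : 0 ≤ lo)
    (hρB : 0 ≤ ρ * B) (hS : Slope ρ B lo hi f n c R) {x x' : ℝ}
    (hx : |B ^ n * x - c| ≤ R) (hx' : |B ^ n * x' - c| ≤ R) :
    |Phi ρ B f (n + 1) x' - Phi ρ B f (n + 1) x| ≤ hi * (ρ * B) ^ (n + 1) * |x' - x| := by
  have hp : 0 ≤ (ρ * B) ^ (n + 1) := pow_nonneg hρB _
  rcases le_total x x' with h | h
  · obtain ⟨h1, h2⟩ := hS x x' h hx hx'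
    have h3 : 0 ≤ lo * (ρ * B) ^ (n + 1) * (x' - x) :=
      mul_nonneg (mul_nonneg hlo hp) (by linarith)
    rw [abs_of_nonneg (by linarith), abs_of_nonneg (by linarith)]
    exact h2
  · obtain ⟨h1, h2⟩ := hS x' x h hx' hx
    have h3 : 0 ≤ lo * (ρ * B) ^ (n + 1) * (x - x') :=
      mul_nonneg (mul_nonneg hlo hp) (by linarith)
    rw [abs_of_nonpos (by linarith), abs_of_nonpos (by linarith)]
    linarith

/-- a value close to the value at the centre is attained -/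
theorem ivt_slope {ρ B lo hi : ℝ} {f : ℝ → ℝ} {n : ℕ} {c R r : ℝ} (hB : 0 < B)
    (hcont : Continuous f) (hS : Slope ρ B lo hi f n c R) (hr0 : 0 ≤ r) (hr : r ≤ R) (y : ℝ)
    (hy : |y - Phi ρ B f (n + 1) (c / B ^ n)| ≤ lo * ρ ^ (n + 1) * B * r) :
    ∃ x, |B ^ n * x - c| ≤ r ∧ Phi ρ B f (n + 1) x = y := by
  have hBn : 0 < B ^ n := pow_pos hB n
  have w0 : B ^ n * (c / B ^ n) = c := by field_simp
  have w1 : B ^ n * ((c + r) / B ^ n) = c + r := by field_simp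
  have w2 : B ^ n * ((c - r) / B ^ n) = c - r := by field_simp
  have a1 : (c - r) / B ^ n ≤ c / B ^ n := by
    rw [div_le_div_iff_of_pos_right hBn]; linarith
  have a2 : c / B ^ n ≤ (c + r) / B ^ n := by
    rw [div_le_div_iff_of_pos_right hBn]; linarith
  have h1 := (hS (c / B ^ n) ((c + r) / B ^ n) a2 (by rw [w0]; simpa using hr0.trans hr)
    (by rw [w1]; simpa [abs_of_nonneg hr0] using hr)).1
  have h2 := (hS ((c - r) / B ^ n) (c / B ^ n) a1
    (by rw [w2]; simpa [abs_of_nonneg hr0] using hr)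
    (by rw [w0]; simpa using hr0.trans hr)).1
  have e1 : lo * (ρ * B) ^ (n + 1) * ((c + r) / B ^ n - c / B ^ n) = lo * ρ ^ (n + 1) * B * r := by
    rw [mul_pow]; field_simp; ring
  have e2 : lo * (ρ * B) ^ (n + 1) * (c / B ^ n - (c - r) / B ^ n) = lo * ρ ^ (n + 1) * B * r := by
    rw [mul_pow]; field_simp; ring
  rw [e1] at h1
  rw [e2] at h2
  have hy' := abs_le.mp hy
  have hle : (c - r) / B ^ n ≤ (c + r) / B ^ n := a1.trans a2
  obtain ⟨x, hx, hxy⟩ := intermediate_value_Icc hle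
    (Phi_cont ρ B hcont (n + 1)).continuousOn (show y ∈ Icc (Phi ρ B f (n + 1) ((c - r) / B ^ n))
      (Phi ρ B f (n + 1) ((c + r) / B ^ n)) from ⟨by linarith [hy'.1], by linarith [hy'.2]⟩)
  refine ⟨x, ?_, hxy⟩
  have h3 : c - r ≤ B ^ n * x := by
    have := mul_le_mul_of_nonneg_left hx.1 hBn.le
    rw [w2] at this
    exact this
  have h4 : B ^ n * x ≤ c + r := by
    have := mul_le_mul_of_nonneg_left hx.2 hBn.le
    rw [w1] at this
    exact this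
  rw [abs_le]
  constructor <;> linarith

/-- the limit function is strictly increasing at the point of the chain -/
theorem strict {ρ B lo hi O : ℝ} (hρ : 0 < ρ) (hB : 1 < B) (hO0 : 0 ≤ O) (hlo : O < lo)
    {f w : ℝ → ℝ} (hw : ∀ n x, w x = Phi ρ B f n x + ρ ^ n * w (B ^ n * x))
    (hO : ∀ x x', |w x - w x'| ≤ O) {c r R : ℕ → ℝ}
    (hS : ∀ n, Slope ρ B lo hi f n (c n) (R n)) (hR0 : ∀ n, r n + 1 / B ≤ R n)
    (hR1 : ∀ n, 1 ≤ n → r n + O / lo ≤ R n) {xs : ℝ} (hxs : ∀ n, |B ^ n * xs - c n| ≤ r n)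
    {x x' : ℝ} (hxx : x < x') (h : x = xs ∨ x' = xs) (hx : |x - c 0| ≤ R 0)
    (hx' : |x' - c 0| ≤ R 0) : w x < w x' := by
  have hB0 : 0 < B := by linarith
  have hlo0 : 0 < lo := by linarith
  set d := x' - x with hd
  have hd0 : 0 < d := by linarith
  have win : ∀ n, |B ^ n * x - c n| ≤ r n + B ^ n * d ∧ |B ^ n * x' - c n| ≤ r n + B ^ n * d := by
    intro n
    have hBn : 0 < B ^ n := pow_pos hB0 n
    have h1 := hxs n
    have h2 : 0 ≤ B ^ n * d := by positivity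
    have h3 : |B ^ n * x - B ^ n * x'| = B ^ n * d := by
      have e : B ^ n * x - B ^ n * x' = - (B ^ n * d) := by rw [hd]; ring
      rw [e, abs_neg, abs_of_nonneg h2]
    rcases h with h | h
    · subst h
      refine ⟨by linarith, ?_⟩
      have e : B ^ n * x' - c n = - (B ^ n * x - B ^ n * x') + (B ^ n * x - c n) := by ring
      rw [e]
      refine (abs_add_le _ _).trans ?_
      rw [abs_neg, h3]
      linarith
    · subst h
      refine ⟨?_, by linarith⟩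
      have e : B ^ n * x - c n = (B ^ n * x - B ^ n * x') + (B ^ n * x' - c n) := by ring
      rw [e]
      refine (abs_add_le _ _).trans ?_
      rw [h3]
      linarith
  -- the basic estimate on the window of order `n`
  have basic : ∀ n, |B ^ n * x - c n| ≤ R n → |B ^ n * x' - c n| ≤ R n →
      ρ ^ (n + 1) * (lo * (B ^ (n + 1) * d) - O) ≤ w x' - w x := by
    intro n h1 h2
    have h3 := (hS n x x' hxx.le h1 h2).1
    rw [hw (n + 1) x, hw (n + 1) x']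
    have h4 := abs_le.mp (hO (B ^ (n + 1) * x') (B ^ (n + 1) * x))
    have hρn : 0 < ρ ^ (n + 1) := pow_pos hρ _
    have h5 := mul_le_mul_of_nonneg_left h4.1 hρn.le
    have e : lo * (ρ * B) ^ (n + 1) * (x' - x) = ρ ^ (n + 1) * (lo * (B ^ (n + 1) * d)) := by
      rw [mul_pow, hd]; ring
    rw [e] at h3
    nlinarith
  rcases lt_or_ge (1 / B) d with hcase | hcase
  · have h1 := basic 0 (by simpa using hx) (by simpa using hx')
    have h2 : 1 < B ^ (0 + 1) * d := by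
      rw [zero_add, pow_one]
      rw [div_lt_iff₀ hB0] at hcase
      linarith
    have h3 : 0 < ρ ^ (0 + 1) * (lo * (B ^ (0 + 1) * d) - O) := by
      apply mul_pos (pow_pos hρ _)
      nlinarith
    linarith
  · have hex : ∃ n : ℕ, 1 < B ^ (n + 1) * d := by
      obtain ⟨n, hn⟩ := pow_unbounded_of_one_lt (1 / d) hB
      refine ⟨n, ?_⟩
      rw [div_lt_iff₀ hd0] at hn
      have : B ^ n * d ≤ B ^ (n + 1) * d := by
        apply mul_le_mul_of_nonneg_right _ hd0.le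
        exact pow_le_pow_right₀ hB.le (Nat.le_succ n)
      linarith
    classical
    have hn := Nat.find_spec hex
    have hmin : ∀ m, m < Nat.find hex → B ^ (m + 1) * d ≤ 1 := fun m hm =>
      not_lt.mp (Nat.find_min hex hm)
    set n := Nat.find hex with hndef
    have hn1 : 1 ≤ n := by
      by_contra hc
      have hn0 : n = 0 := by omega
      rw [hn0, zero_add, pow_one] at hn
      rw [le_div_iff₀ hB0] at hcase
      linarith
    have hBd : B ^ n * d ≤ 1 := by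
      have := hmin (n - 1) (by omega)
      have e : n - 1 + 1 = n := by omega
      rwa [e] at this
    rcases le_or_gt (B ^ n * d) (O / lo) with h1 | h1
    · have h2 := basic n ((win n).1.trans (by linarith [hR1 n hn1]))
        ((win n).2.trans (by linarith [hR1 n hn1]))
      have h3 : 0 < ρ ^ (n + 1) * (lo * (B ^ (n + 1) * d) - O) := by
        apply mul_pos (pow_pos hρ _)
        nlinarith
      linarith
    · obtain ⟨m, hmn⟩ : ∃ m, n = m + 1 := ⟨n - 1, by omega⟩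
      rw [hmn] at h1 hBd
      have h4 : B ^ m * d ≤ 1 / B := by
        rw [le_div_iff₀ hB0]
        calc B ^ m * d * B = B ^ (m + 1) * d := by ring
          _ ≤ 1 := hBd
      have h2 := basic m ((win m).1.trans (by linarith [hR0 m]))
        ((win m).2.trans (by linarith [hR0 m]))
      have h3 : 0 < ρ ^ (m + 1) * (lo * (B ^ (m + 1) * d) - O) := by
        apply mul_pos (pow_pos hρ _)
        rw [div_lt_iff₀ hlo0] at h1
        linarith
      linarith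

/-- the point of a chain -/
theorem chain_point {B : ℝ} (hB : 1 < B) {c r : ℕ → ℝ} (hr0 : ∀ n, 0 ≤ r n)
    (hr : ∀ n, r (n + 1) + 1 / B + 1 / 2 ≤ 1)
    (hlink : ∀ n, ∃ x, |B ^ n * x - c n| ≤ r n ∧ |c (n + 1) - B ^ (n + 1) * x| ≤ 1 / 2) :
    ∃ xs, ∀ n, |B ^ n * xs - c n| ≤ r n + 1 / B := by
  have hB0 : 0 < B := by linarith
  let K : ℕ → Set ℝ := fun n => {z | |B ^ n * z - c n| ≤ r n + 1 / B}
  have hKeq : ∀ n, K n = Icc ((c n - (r n + 1 / B)) / B ^ n) ((c n + (r n + 1 / B)) / B ^ n) := by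
    intro n
    have hBn : 0 < B ^ n := pow_pos hB0 n
    ext z
    show |B ^ n * z - c n| ≤ r n + 1 / B ↔ _
    rw [mem_Icc, abs_le, div_le_iff₀ hBn, le_div_iff₀ hBn, mul_comm z]
    constructor <;> rintro ⟨h1, h2⟩ <;> constructor <;> linarith
  have hsub : ∀ n, K (n + 1) ⊆ K n := by
    intro n z hz
    obtain ⟨x, hx1, hx2⟩ := hlink n
    have hz' : |B ^ (n + 1) * z - c (n + 1)| ≤ r (n + 1) + 1 / B := hz
    show |B ^ n * z - c n| ≤ r n + 1 / B
    have h1 : |B ^ (n + 1) * z - B ^ (n + 1) * x| ≤ 1 := by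
      have e : B ^ (n + 1) * z - B ^ (n + 1) * x
          = (B ^ (n + 1) * z - c (n + 1)) + (c (n + 1) - B ^ (n + 1) * x) := by ring
      rw [e]
      exact (abs_add_le _ _).trans (by linarith [hr n])
    have h2 : |B ^ n * z - B ^ n * x| ≤ 1 / B := by
      have e : B ^ (n + 1) * z - B ^ (n + 1) * x = B * (B ^ n * z - B ^ n * x) := by ring
      rw [e, abs_mul, abs_of_pos hB0] at h1
      rw [le_div_iff₀ hB0]
      linarith
    have e : B ^ n * z - c n = (B ^ n * z - B ^ n * x) + (B ^ n * x - c n) := by ring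
    rw [e]
    exact (abs_add_le _ _).trans (by linarith)
  have hne : ∀ n, (K n).Nonempty := by
    intro n
    rw [hKeq, nonempty_Icc]
    have hBn : 0 < B ^ n := pow_pos hB0 n
    rw [div_le_div_iff_of_pos_right hBn]
    have := hr0 n
    have : 0 < 1 / B := by positivity
    linarith
  have hcomp : IsCompact (K 0) := by rw [hKeq]; exact isCompact_Icc
  have hcl : ∀ n, IsClosed (K n) := fun n => by rw [hKeq]; exact isClosed_Icc
  obtain ⟨xs, hxs⟩ := IsCompact.nonempty_iInter_of_sequence_nonempty_isCompact_isClosed K hsub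
    hne hcomp hcl
  rw [mem_iInter] at hxs
  exact ⟨xs, hxs⟩

/-- data of the two chains: an increasing one for `g` and a decreasing one (increasing for `-g`) -/
structure Dat where
  ρ : ℝ
  B : ℝ
  θ : ℝ
  G : ℝ
  lop : ℝ
  hip : ℝ
  lom : ℝ
  him : ℝ
  cs : ℝ
  es : ℝ
  Rp : ℕ → ℝ
  Rm : ℕ → ℝ
  rp : ℕ → ℝ
  rm : ℕ → ℝ

/-- the inequalities between the data -/
structure Dat.Ok (D : Dat) : Prop where
  ρ0 : 0 < D.ρ
  ρ1 : D.ρ < 1
  B1 : 1 < D.B
  lam : D.ρ * D.B = 1 + D.θ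
  lop0 : 0 ≤ D.lop
  lom0 : 0 ≤ D.lom
  hip0 : 0 ≤ D.hip
  him0 : 0 ≤ D.him
  rp0 : ∀ n, 0 ≤ D.rp n
  rm0 : ∀ n, 0 ≤ D.rm n
  Rp1 : ∀ n, D.Rp (n + 1) ≤ 1 / 2
  Rm1 : ∀ n, D.Rm (n + 1) ≤ 1 / 2
  wp : ∀ n, D.rp n + 1 / D.B ≤ D.Rp n
  wm : ∀ n, D.rm n + 1 / D.B ≤ D.Rm n
  selp : ∀ n, D.him / 2 + 2 * D.G ≤ D.lop * D.B * D.rp n
  selm : ∀ n, D.hip / 2 ≤ D.lom * (D.ρ * D.B) * D.rm (n + 1)

/-- the properties of the function -/
structure Dat.Fn (D : Dat) (g : ℝ → ℝ) : Prop where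
  cont : Continuous g
  per : Function.Periodic g 1
  bd : ∀ x, |g x| ≤ D.G
  up : ∀ n t t', t ≤ t' → |t - D.cs| ≤ D.Rp (n + 1) → |t' - D.cs| ≤ D.Rp (n + 1) →
    D.θ * D.lop * (t' - t) ≤ g t' - g t ∧ g t' - g t ≤ D.θ * D.hip * (t' - t)
  down : ∀ n t t', t ≤ t' → |t - D.es| ≤ D.Rm (n + 1) → |t' - D.es| ≤ D.Rm (n + 1) →
    D.θ * D.lom * (t' - t) ≤ -g t' - -g t ∧ -g t' - -g t ≤ D.θ * D.him * (t' - t)

/-- the invariant of the construction -/
def Inv (D : Dat) (g : ℝ → ℝ) (n : ℕ) (s : ℝ × ℝ) : Prop :=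
  Slope D.ρ D.B D.lop D.hip g n s.1 (D.Rp n) ∧
  Slope D.ρ D.B D.lom D.him (fun y => - g y) n s.2 (D.Rm n) ∧
  |Phi D.ρ D.B g (n + 1) (s.1 / D.B ^ n) - Phi D.ρ D.B g (n + 1) (s.2 / D.B ^ n)|
    ≤ D.lom * D.ρ ^ (n + 1) * D.B * D.rm n

theorem step (D : Dat) (hD : D.Ok) {g : ℝ → ℝ} (hg : D.Fn g) (n : ℕ) (s : ℝ × ℝ)
    (hs : Inv D g n s) : ∃ s' : ℝ × ℝ, Inv D g (n + 1) s' ∧
      (∃ x, |D.B ^ n * x - s.1| ≤ D.rp n ∧ |s'.1 - D.B ^ (n + 1) * x| ≤ 1 / 2) ∧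
      (∃ x, |D.B ^ n * x - s.2| ≤ D.rm n ∧ |s'.2 - D.B ^ (n + 1) * x| ≤ 1 / 2) := by
  obtain ⟨c, e⟩ := s
  obtain ⟨hSp, hSm, hov⟩ := hs
  simp only at hSp hSm hov ⊢
  have hB0 : 0 < D.B := by linarith [hD.B1]
  have hBn : 0 < D.B ^ n := pow_pos hB0 n
  have hBn1 : 0 < D.B ^ (n + 1) := pow_pos hB0 _
  have hρn : 0 < D.ρ ^ (n + 1) := pow_pos hD.ρ0 _
  have hρB : 0 ≤ D.ρ * D.B := (mul_pos hD.ρ0 hB0).le
  set u := Phi D.ρ D.B g (n + 1) (c / D.B ^ n) with hu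
  have hwp := hD.wp n
  have hwm := hD.wm n
  have h1B : 0 < 1 / D.B := by positivity
  -- the decreasing chain
  obtain ⟨x', hx', hFx'⟩ := ivt_slope (f := fun y => - g y) hB0 hg.cont.neg hSm (hD.rm0 n)
    (by linarith) (-u) (by
    rw [Phi_neg]
    have : -u - -Phi D.ρ D.B g (n + 1) (e / D.B ^ n)
        = -(u - Phi D.ρ D.B g (n + 1) (e / D.B ^ n)) := by ring
    rw [this, abs_neg]
    exact hov)
  have hgx' : Phi D.ρ D.B g (n + 1) x' = u := by
    have := Phi_neg D.ρ D.B g (n + 1) x'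
    have h2 : Phi D.ρ D.B (fun y => - g y) (n + 1) x' = -u := hFx'
    linarith
  set m' : ℤ := round (D.B ^ (n + 1) * x' - D.es) with hm'
  have hm'1 : |(D.es + m') - D.B ^ (n + 1) * x'| ≤ 1 / 2 := by
    have := abs_sub_round (D.B ^ (n + 1) * x' - D.es)
    rw [← hm', abs_sub_comm] at this
    have e1 : (D.es + m') - D.B ^ (n + 1) * x' = m' - (D.B ^ (n + 1) * x' - D.es) := by ring
    rw [e1]; exact this
  set e' := D.es + (m' : ℝ) with he'
  have hSm' : Slope D.ρ D.B D.lom D.him (fun y => - g y) (n + 1) e' (D.Rm (n + 1)) :=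
    slope_succ hD.ρ0 hD.B1 hD.lam (fun y => by show - g (y + 1) = - g y; rw [hg.per]) m' hSm hx'
      hm'1 (hD.Rm1 n) hwm (hg.down n)
  have hB2 : ∀ z y, |z - D.B ^ (n + 1) * y| ≤ 1 / 2 →
      |D.B ^ n * (z / D.B ^ (n + 1)) - D.B ^ n * y| ≤ 1 / (2 * D.B) := by
    intro z y h
    have e1 : D.B ^ n * (z / D.B ^ (n + 1)) - D.B ^ n * y = (z - D.B ^ (n + 1) * y) / D.B := by
      rw [pow_succ]; field_simp
    rw [e1, abs_div, abs_of_pos hB0, div_le_div_iff₀ hB0 (by positivity)]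
    nlinarith
  have hB3 : 1 / (2 * D.B) ≤ 1 / D.B := one_div_le_one_div_of_le hB0 (by linarith)
  have hdist : ∀ z y, |z - D.B ^ (n + 1) * y| ≤ 1 / 2 →
      (D.ρ * D.B) ^ (n + 1) * |z / D.B ^ (n + 1) - y| ≤ D.ρ ^ (n + 1) * (1 / 2) := by
    intro z y h
    have e1 : z / D.B ^ (n + 1) - y = (z - D.B ^ (n + 1) * y) / D.B ^ (n + 1) := by
      field_simp
    rw [e1, abs_div, abs_of_pos hBn1, mul_pow]
    have e2 : D.ρ ^ (n + 1) * D.B ^ (n + 1) * (|z - D.B ^ (n + 1) * y| / D.B ^ (n + 1))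
        = D.ρ ^ (n + 1) * |z - D.B ^ (n + 1) * y| := by field_simp
    rw [e2]
    exact mul_le_mul_of_nonneg_left h hρn.le
  have hwe' : |D.B ^ n * (e' / D.B ^ (n + 1)) - e| ≤ D.Rm n := by
    have h1 := hB2 e' x' hm'1
    have e1 : D.B ^ n * (e' / D.B ^ (n + 1)) - e
        = (D.B ^ n * (e' / D.B ^ (n + 1)) - D.B ^ n * x') + (D.B ^ n * x' - e) := by ring
    rw [e1]
    exact (abs_add_le _ _).trans (by linarith)
  have hper : ∀ (z : ℝ) (m : ℤ), g (z + m) = g z := by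
    intro z m
    have := hg.per.int_mul m z
    rw [mul_one] at this
    exact this
  have hval : ∀ z, Phi D.ρ D.B g (n + 1 + 1) (z / D.B ^ (n + 1))
      = Phi D.ρ D.B g (n + 1) (z / D.B ^ (n + 1)) + D.ρ ^ (n + 1) * g z := by
    intro z
    rw [Phi_succ]
    congr 3
    field_simp
  have hdm : |Phi D.ρ D.B g (n + 1) (e' / D.B ^ (n + 1)) - u| ≤ D.him * (D.ρ ^ (n + 1) * (1 / 2)) := by
    have h1 := slope_abs hD.lom0 hρB hSm (hx'.trans (by linarith)) hwe'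
    rw [Phi_neg, Phi_neg, hgx'] at h1
    have e1 : -Phi D.ρ D.B g (n + 1) (e' / D.B ^ (n + 1)) - -u
        = -(Phi D.ρ D.B g (n + 1) (e' / D.B ^ (n + 1)) - u) := by ring
    rw [e1, abs_neg] at h1
    refine h1.trans ?_
    have h2 := hdist e' x' hm'1
    have hhi := hD.him0
    calc D.him * (D.ρ * D.B) ^ (n + 1) * |e' / D.B ^ (n + 1) - x'|
        = D.him * ((D.ρ * D.B) ^ (n + 1) * |e' / D.B ^ (n + 1) - x'|) := by ring
      _ ≤ _ := mul_le_mul_of_nonneg_left h2 hhi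
  set v' := Phi D.ρ D.B g (n + 1 + 1) (e' / D.B ^ (n + 1)) with hv'
  have hv'u : |v' - u| ≤ D.ρ ^ (n + 1) * (D.him / 2 + D.G) := by
    rw [hv', hval]
    have e1 : Phi D.ρ D.B g (n + 1) (e' / D.B ^ (n + 1)) + D.ρ ^ (n + 1) * g e' - u
        = (Phi D.ρ D.B g (n + 1) (e' / D.B ^ (n + 1)) - u) + D.ρ ^ (n + 1) * g e' := by ring
    rw [e1]
    refine (abs_add_le _ _).trans ?_
    rw [abs_mul, abs_of_pos hρn]
    have := mul_le_mul_of_nonneg_left (hg.bd e') hρn.le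
    nlinarith
  -- the increasing chain
  set y := v' - D.ρ ^ (n + 1) * g D.cs with hy
  obtain ⟨x, hx, hFx⟩ := ivt_slope hB0 hg.cont hSp (hD.rp0 n) (by linarith) y (by
    rw [← hu, hy]
    have e1 : v' - D.ρ ^ (n + 1) * g D.cs - u = (v' - u) + -(D.ρ ^ (n + 1) * g D.cs) := by ring
    rw [e1]
    refine (abs_add_le _ _).trans ?_
    rw [abs_neg, abs_mul, abs_of_pos hρn]
    have h1 := mul_le_mul_of_nonneg_left (hg.bd D.cs) hρn.le
    have h2 := mul_le_mul_of_nonneg_left (hD.selp n) hρn.le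
    nlinarith)
  set m : ℤ := round (D.B ^ (n + 1) * x - D.cs) with hm
  have hm1 : |(D.cs + m) - D.B ^ (n + 1) * x| ≤ 1 / 2 := by
    have := abs_sub_round (D.B ^ (n + 1) * x - D.cs)
    rw [← hm, abs_sub_comm] at this
    have e1 : (D.cs + m) - D.B ^ (n + 1) * x = m - (D.B ^ (n + 1) * x - D.cs) := by ring
    rw [e1]; exact this
  set c' := D.cs + (m : ℝ) with hc'
  have hSp' : Slope D.ρ D.B D.lop D.hip g (n + 1) c' (D.Rp (n + 1)) :=
    slope_succ hD.ρ0 hD.B1 hD.lam hg.per m hSp hx hm1 (hD.Rp1 n) hwp (hg.up n)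
  have hwc' : |D.B ^ n * (c' / D.B ^ (n + 1)) - c| ≤ D.Rp n := by
    have h1 := hB2 c' x hm1
    have e1 : D.B ^ n * (c' / D.B ^ (n + 1)) - c
        = (D.B ^ n * (c' / D.B ^ (n + 1)) - D.B ^ n * x) + (D.B ^ n * x - c) := by ring
    rw [e1]
    exact (abs_add_le _ _).trans (by linarith)
  have hhip := hD.hip0
  have hdp : |Phi D.ρ D.B g (n + 1) (c' / D.B ^ (n + 1)) - y| ≤ D.hip * (D.ρ ^ (n + 1) * (1 / 2)) := by
    have h1 := slope_abs hD.lop0 hρB hSp (hx.trans (by linarith)) hwc'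
    rw [hFx] at h1
    refine h1.trans ?_
    have h2 := hdist c' x hm1
    calc D.hip * (D.ρ * D.B) ^ (n + 1) * |c' / D.B ^ (n + 1) - x|
        = D.hip * ((D.ρ * D.B) ^ (n + 1) * |c' / D.B ^ (n + 1) - x|) := by ring
      _ ≤ _ := mul_le_mul_of_nonneg_left h2 hhip
  refine ⟨(c', e'), ⟨hSp', hSm', ?_⟩, ⟨x, hx, hm1⟩, ⟨x', hx', hm'1⟩⟩
  show |Phi D.ρ D.B g (n + 1 + 1) (c' / D.B ^ (n + 1)) - v'| ≤
    D.lom * D.ρ ^ (n + 1 + 1) * D.B * D.rm (n + 1)
  rw [hval]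
  have hgc : g c' = g D.cs := hper D.cs m
  rw [hgc]
  have e1 : Phi D.ρ D.B g (n + 1) (c' / D.B ^ (n + 1)) + D.ρ ^ (n + 1) * g D.cs - v'
      = Phi D.ρ D.B g (n + 1) (c' / D.B ^ (n + 1)) - y := by rw [hy]; ring
  rw [e1]
  refine hdp.trans ?_
  have h2 := mul_le_mul_of_nonneg_left (hD.selm n) hρn.le
  calc D.hip * (D.ρ ^ (n + 1) * (1 / 2)) = D.ρ ^ (n + 1) * (D.hip / 2) := by ring
    _ ≤ D.ρ ^ (n + 1) * (D.lom * (D.ρ * D.B) * D.rm (n + 1)) := h2
    _ = _ := by ring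

/-- existence of the two chains and of their points, with the same value -/
theorem exists_chains (D : Dat) (hD : D.Ok) {g : ℝ → ℝ} (hg : D.Fn g)
    (hrp : ∀ n, D.rp (n + 1) + 1 / D.B + 1 / 2 ≤ 1) (hrm : ∀ n, D.rm (n + 1) + 1 / D.B + 1 / 2 ≤ 1)
    (hrp' : ∀ n, D.rp n + 1 / D.B ≤ 1) (hrm' : ∀ n, D.rm n + 1 / D.B ≤ 1)
    {c0 e0 : ℝ} (h0 : Inv D g 0 (c0, e0)) {w : ℝ → ℝ} {O : ℝ}
    (hw : ∀ n x, w x = Phi D.ρ D.B g n x + D.ρ ^ n * w (D.B ^ n * x))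
    (hO : ∀ x x', |w x - w x'| ≤ O) :
    ∃ (c e : ℕ → ℝ) (xp xm : ℝ), c 0 = c0 ∧ e 0 = e0 ∧
      (∀ n, Slope D.ρ D.B D.lop D.hip g n (c n) (D.Rp n)) ∧
      (∀ n, Slope D.ρ D.B D.lom D.him (fun y => - g y) n (e n) (D.Rm n)) ∧
      (∀ n, |D.B ^ n * xp - c n| ≤ D.rp n + 1 / D.B) ∧
      (∀ n, |D.B ^ n * xm - e n| ≤ D.rm n + 1 / D.B) ∧ w xp = w xm := by
  have hB0 : 0 < D.B := by linarith [hD.B1]
  choose! F hF1 hF2 hF3 using fun n s hs => step D hD hg n s hs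
  let S : ℕ → ℝ × ℝ := fun n => Nat.rec (motive := fun _ => ℝ × ℝ) (c0, e0) (fun n s => F n s) n
  have hSs : ∀ n, S (n + 1) = F n (S n) := fun _ => rfl
  have hI : ∀ n, Inv D g n (S n) := by
    intro n
    induction n with
    | zero => exact h0
    | succ n ih => rw [hSs]; exact hF1 n _ ih
  obtain ⟨xp, hxp⟩ := chain_point (c := fun n => (S n).1) hD.B1 hD.rp0 hrp (fun n => by
    simp only [hSs]
    exact hF2 n _ (hI n))
  obtain ⟨xm, hxm⟩ := chain_point (c := fun n => (S n).2) hD.B1 hD.rm0 hrm (fun n => by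
    simp only [hSs]
    exact hF3 n _ (hI n))
  refine ⟨fun n => (S n).1, fun n => (S n).2, xp, xm, rfl, rfl, fun n => (hI n).1,
    fun n => (hI n).2.1, hxp, hxm, ?_⟩
  -- equality of the values
  have hρB : 0 < D.ρ * D.B := mul_pos hD.ρ0 hB0
  have key : ∀ n, |w xp - w xm| ≤ D.ρ ^ (n + 1) *
      (D.hip * D.B + D.him * D.B + D.lom * D.B + O) := by
    intro n
    obtain ⟨hSp, hSm, hov⟩ := hI n
    have hBn : 0 < D.B ^ n := pow_pos hB0 n
    have hρn : 0 < D.ρ ^ (n + 1) := pow_pos hD.ρ0 _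
    have hwp := hD.wp n
    have hwm := hD.wm n
    have h1B : 0 < 1 / D.B := by positivity
    have hp0 := hD.rp0 n
    have hm0 := hD.rm0 n
    have hdist : ∀ z y r, |D.B ^ n * z - y| ≤ r → r ≤ 1 →
        (D.ρ * D.B) ^ (n + 1) * |z - y / D.B ^ n| ≤ D.ρ ^ (n + 1) * D.B := by
      intro z y r h hr
      have e1 : z - y / D.B ^ n = (D.B ^ n * z - y) / D.B ^ n := by field_simp
      rw [e1, abs_div, abs_of_pos hBn, mul_pow]
      have e2 : D.ρ ^ (n + 1) * D.B ^ (n + 1) * (|D.B ^ n * z - y| / D.B ^ n)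
          = D.ρ ^ (n + 1) * D.B * |D.B ^ n * z - y| := by
        rw [pow_succ D.B]; field_simp
      rw [e2]
      calc D.ρ ^ (n + 1) * D.B * |D.B ^ n * z - y| ≤ D.ρ ^ (n + 1) * D.B * 1 :=
            mul_le_mul_of_nonneg_left (h.trans hr) (mul_nonneg hρn.le hB0.le)
        _ = _ := mul_one _
    have cen : ∀ y R : ℝ, 0 ≤ R → |D.B ^ n * (y / D.B ^ n) - y| ≤ R := by
      intro y R hR
      rw [show D.B ^ n * (y / D.B ^ n) - y = 0 by field_simp; ring, abs_zero]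
      exact hR
    have a1 := slope_abs hD.lop0 hρB.le hSp (cen _ _ (by linarith)) ((hxp n).trans hwp)
    have a2 := slope_abs hD.lom0 hρB.le hSm (cen _ _ (by linarith)) ((hxm n).trans hwm)
    rw [Phi_neg, Phi_neg] at a2
    have b1 := hdist xp (S n).1 _ (hxp n) (hrp' n)
    have b2 := hdist xm (S n).2 _ (hxm n) (hrm' n)
    have c1 := mul_le_mul_of_nonneg_left b1 hD.hip0
    have c2 := mul_le_mul_of_nonneg_left b2 hD.him0
    have d1 := hO (D.B ^ (n + 1) * xp) (D.B ^ (n + 1) * xm)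
    have d2 := mul_le_mul_of_nonneg_left d1 hρn.le
    have d3 : D.lom * D.ρ ^ (n + 1) * D.B * D.rm n ≤ D.lom * D.ρ ^ (n + 1) * D.B * 1 := by
      apply mul_le_mul_of_nonneg_left _ (mul_nonneg (mul_nonneg hD.lom0 hρn.le) hB0.le)
      linarith [hrm' n]
    rw [hw (n + 1) xp, hw (n + 1) xm]
    have e1 : Phi D.ρ D.B g (n + 1) xp + D.ρ ^ (n + 1) * w (D.B ^ (n + 1) * xp)
          - (Phi D.ρ D.B g (n + 1) xm + D.ρ ^ (n + 1) * w (D.B ^ (n + 1) * xm))
        = (Phi D.ρ D.B g (n + 1) xp - Phi D.ρ D.B g (n + 1) ((S n).1 / D.B ^ n))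
          + (Phi D.ρ D.B g (n + 1) ((S n).1 / D.B ^ n)
            - Phi D.ρ D.B g (n + 1) ((S n).2 / D.B ^ n))
          + (-Phi D.ρ D.B g (n + 1) xm - -Phi D.ρ D.B g (n + 1) ((S n).2 / D.B ^ n))
          + D.ρ ^ (n + 1) * (w (D.B ^ (n + 1) * xp) - w (D.B ^ (n + 1) * xm)) := by ring
    rw [e1]
    have f1 := abs_add_le ((Phi D.ρ D.B g (n + 1) xp - Phi D.ρ D.B g (n + 1) ((S n).1 / D.B ^ n))
          + (Phi D.ρ D.B g (n + 1) ((S n).1 / D.B ^ n)
            - Phi D.ρ D.B g (n + 1) ((S n).2 / D.B ^ n))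
          + (-Phi D.ρ D.B g (n + 1) xm - -Phi D.ρ D.B g (n + 1) ((S n).2 / D.B ^ n)))
          (D.ρ ^ (n + 1) * (w (D.B ^ (n + 1) * xp) - w (D.B ^ (n + 1) * xm)))
    have f2 := abs_add_le ((Phi D.ρ D.B g (n + 1) xp - Phi D.ρ D.B g (n + 1) ((S n).1 / D.B ^ n))
          + (Phi D.ρ D.B g (n + 1) ((S n).1 / D.B ^ n)
            - Phi D.ρ D.B g (n + 1) ((S n).2 / D.B ^ n)))
          (-Phi D.ρ D.B g (n + 1) xm - -Phi D.ρ D.B g (n + 1) ((S n).2 / D.B ^ n))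
    have f3 := abs_add_le (Phi D.ρ D.B g (n + 1) xp - Phi D.ρ D.B g (n + 1) ((S n).1 / D.B ^ n))
          (Phi D.ρ D.B g (n + 1) ((S n).1 / D.B ^ n)
            - Phi D.ρ D.B g (n + 1) ((S n).2 / D.B ^ n))
    rw [abs_mul (D.ρ ^ (n + 1)), abs_of_pos hρn] at f1
    nlinarith
  have hlim : Filter.Tendsto (fun n : ℕ => D.ρ ^ (n + 1) *
      (D.hip * D.B + D.him * D.B + D.lom * D.B + O)) Filter.atTop (nhds 0) := by
    have h1 := (tendsto_pow_atTop_nhds_zero_of_lt_one hD.ρ0.le hD.ρ1)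
    have h2 := (h1.comp (Filter.tendsto_add_atTop_nat 1)).mul_const
      (D.hip * D.B + D.him * D.B + D.lom * D.B + O)
    rw [zero_mul] at h2
    exact h2
  have h3 : |w xp - w xm| ≤ 0 := ge_of_tendsto' hlim key
  exact sub_eq_zero.1 (abs_nonpos_iff.1 h3)

end Pool.Agent.R266.WC
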