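import Pool.Agent.R733.WeiSlice
import Pool.Agent.R266.WeiChain

set_option autoImplicit false

/-!
# An open ball of functions whose Weierstrass series has an interior level set with two points
-/

open MeasureTheory Set
open scoped ENNReal NNReal

namespace Pool.Agent.R266.WT

open Pool.Agent.W172.WL Pool.Agent.W337.WL Pool.Agent.R733.Wei Pool.Agent.R266.WC

/-- the profile on one period -/
noncomputable def P (t : ℝ) : ℝ :=
  max (min (101 / 100 * t) (min (21 / 200 - 1 / 25 * t) (101 / 2500 - 101 / 25 * (t - 61 / 100))))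
    (1 / 100 * (t - 1))

theorem P_zero : P 0 = 0 := by
  unfold P
  rw [min_eq_left (le_min (by norm_num) (by norm_num)), max_eq_left (by norm_num)]
  norm_num

theorem P_one : P 1 = 0 := by
  unfold P
  rw [max_eq_right]
  · norm_num
  · exact (min_le_right _ _).trans ((min_le_right _ _).trans (by norm_num))

theorem aff_lip {a b K : ℝ} (ha : |a| ≤ K) (x y : ℝ) : |(a * x + b) - (a * y + b)| ≤ K * |x - y| := by
  have : (a * x + b) - (a * y + b) = a * (x - y) := by ring
  rw [this, abs_mul]
  exact mul_le_mul_of_nonneg_right ha (abs_nonneg _)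

theorem P_lip (x y : ℝ) : |P x - P y| ≤ 101 / 25 * |x - y| := by
  have h1 : |101 / 100 * x - 101 / 100 * y| ≤ 101 / 25 * |x - y| := by
    have := aff_lip (a := 101 / 100) (b := 0) (K := 101 / 25) (by norm_num [abs_of_pos]) x y
    simpa using this
  have h2 : |(21 / 200 - 1 / 25 * x) - (21 / 200 - 1 / 25 * y)| ≤ 101 / 25 * |x - y| := by
    have := aff_lip (a := -(1 / 25)) (b := 21 / 200) (K := 101 / 25)
      (by rw [abs_neg]; norm_num [abs_of_pos]) x y
    have e : (21 / 200 - 1 / 25 * x) - (21 / 200 - 1 / 25 * y)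
      = (-(1 / 25) * x + 21 / 200) - (-(1 / 25) * y + 21 / 200) := by ring
    rw [e]; exact this
  have h3 : |(101 / 2500 - 101 / 25 * (x - 61 / 100)) - (101 / 2500 - 101 / 25 * (y - 61 / 100))|
      ≤ 101 / 25 * |x - y| := by
    have := aff_lip (a := -(101 / 25)) (b := 0) (K := 101 / 25)
      (by rw [abs_neg]; norm_num [abs_of_pos]) x y
    have e : (101 / 2500 - 101 / 25 * (x - 61 / 100)) - (101 / 2500 - 101 / 25 * (y - 61 / 100))
      = (-(101 / 25) * x + 0) - (-(101 / 25) * y + 0) := by ring
    rw [e]; exact this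
  have h4 : |1 / 100 * (x - 1) - 1 / 100 * (y - 1)| ≤ 101 / 25 * |x - y| := by
    have := aff_lip (a := 1 / 100) (b := 0) (K := 101 / 25) (by norm_num [abs_of_pos]) x y
    have e : 1 / 100 * (x - 1) - 1 / 100 * (y - 1) = (1 / 100 * x + 0) - (1 / 100 * y + 0) := by ring
    rw [e]; exact this
  unfold P
  refine (abs_max_sub_max_le_max _ _ _ _).trans (max_le ?_ h4)
  refine (abs_min_sub_min_le_max _ _ _ _).trans (max_le h1 ?_)
  exact (abs_min_sub_min_le_max _ _ _ _).trans (max_le h2 h3)

theorem P_ge (t : ℝ) : 1 / 100 * (t - 1) ≤ P t := le_max_right _ _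

theorem P_le (t : ℝ) (h0 : 0 ≤ t) (h1 : t ≤ 1) : P t ≤ 21 / 200 := by
  unfold P
  apply max_le
  · exact (min_le_right _ _).trans ((min_le_left _ _).trans (by linarith))
  · linarith

/-- the periodic function -/
noncomputable def g1 (x : ℝ) : ℝ := P (Int.fract x)

theorem g1_per : Function.Periodic g1 1 := by
  intro x
  unfold g1
  rw [Int.fract_add_one]

theorem g1_eq {t : ℝ} (h0 : 0 ≤ t) (h1 : t ≤ 1) : g1 t = P t := by
  rcases h1.lt_or_eq with h | h
  · unfold g1
    rw [Int.fract_eq_self.2 ⟨h0, h⟩]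
  · rw [h]
    unfold g1
    rw [Int.fract_one, P_zero, P_one]

theorem g1_lip_aux {x y : ℝ} (h : x ≤ y) : |g1 x - g1 y| ≤ 101 / 25 * |x - y| := by
  have hb : ∀ z, -(1 / 100) ≤ g1 z ∧ g1 z ≤ 21 / 200 := by
    intro z
    have h0 := Int.fract_nonneg z
    have h1 := (Int.fract_lt_one z).le
    exact ⟨by have := P_ge (Int.fract z); unfold g1; linarith, P_le _ h0 h1⟩
  rw [abs_of_nonpos (by linarith : x - y ≤ 0)]
  rcases le_or_gt 1 (y - x) with h1 | h1
  · have a := hb x
    have b := hb y
    rw [abs_le]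
    constructor <;> linarith [a.1, a.2, b.1, b.2]
  · rcases le_or_gt (⌊y⌋ : ℝ) x with h2 | h2
    · have e : ⌊x⌋ = ⌊y⌋ := by
        rw [Int.floor_eq_iff]
        exact ⟨h2, by linarith [Int.lt_floor_add_one y]⟩
      have e2 : Int.fract x - Int.fract y = x - y := by
        unfold Int.fract; rw [e]; ring
      have := P_lip (Int.fract x) (Int.fract y)
      rw [e2, abs_of_nonpos (by linarith : x - y ≤ 0)] at this
      exact this
    · have e : ⌊x⌋ = ⌊y⌋ - 1 := by
        rw [Int.floor_eq_iff]
        push_cast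
        exact ⟨by linarith [Int.floor_le y], by linarith⟩
      have e1 : Int.fract x = x - ⌊y⌋ + 1 := by
        unfold Int.fract; rw [e]; push_cast; ring
      have e2 : Int.fract y = y - ⌊y⌋ := rfl
      have a := P_lip (Int.fract x) 1
      have b := P_lip 0 (Int.fract y)
      rw [P_one] at a
      rw [P_zero] at b
      rw [abs_of_nonpos (by rw [e1]; linarith : Int.fract x - 1 ≤ 0)] at a
      rw [abs_of_nonpos (by linarith [Int.fract_nonneg y] : 0 - Int.fract y ≤ 0)] at b
      have c := abs_sub_le (g1 x) 0 (g1 y)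
      have d1 : |g1 x - 0| ≤ 101 / 25 * -(Int.fract x - 1) := a
      have d2 : |0 - g1 y| ≤ 101 / 25 * -(0 - Int.fract y) := b
      rw [e1] at d1
      rw [e2] at d2
      linarith

theorem g1_lip (x y : ℝ) : |g1 x - g1 y| ≤ 101 / 25 * |x - y| := by
  rcases le_total x y with h | h
  · exact g1_lip_aux h
  · rw [abs_sub_comm (g1 x), abs_sub_comm x]
    exact g1_lip_aux h

theorem g1_bd (z : ℝ) : -(1 / 100) ≤ g1 z ∧ g1 z ≤ 21 / 200 := by
  have h0 := Int.fract_nonneg z
  have h1 := (Int.fract_lt_one z).le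
  exact ⟨by have := P_ge (Int.fract z); unfold g1; linarith, P_le _ h0 h1⟩

theorem g1_lipPer : LipPer g1 := ⟨g1_per, 101 / 25, LipschitzWith.of_dist_le_mul fun x y => by
  rw [Real.dist_eq, Real.dist_eq]
  have := g1_lip x y
  simpa using this⟩

/-- the four branches -/
theorem br1 {t : ℝ} (h0 : 0 ≤ t) (h1 : t ≤ 1 / 10) : g1 t = 101 / 100 * t := by
  rw [g1_eq h0 (by linarith)]
  unfold P
  rw [min_eq_left (le_min (by linarith) (by linarith)), max_eq_left (by linarith)]

theorem br2 {t : ℝ} (h0 : 1 / 10 ≤ t) (h1 : t ≤ 59 / 100) : g1 t = 21 / 200 - 1 / 25 * t := by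
  rw [g1_eq (by linarith) (by linarith)]
  unfold P
  rw [min_eq_right ((min_le_left _ _).trans (by linarith)), min_eq_left (by linarith),
    max_eq_left (by linarith)]

theorem br3 {t : ℝ} (h0 : 3 / 5 ≤ t) (h1 : t ≤ 31 / 50) :
    g1 t = 101 / 2500 - 101 / 25 * (t - 61 / 100) := by
  rw [g1_eq (by linarith) (by linarith)]
  unfold P
  rw [min_eq_right ((min_le_right _ _).trans (by linarith)), min_eq_right (by linarith),
    max_eq_left (by linarith)]

theorem br4 {t : ℝ} (h0 : 63 / 100 ≤ t) (h1 : t ≤ 1) : g1 t = 1 / 100 * (t - 1) := by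
  rw [g1_eq (by linarith) h1]
  unfold P
  rw [max_eq_right ((min_le_right _ _).trans ((min_le_right _ _).trans (by linarith)))]

theorem top {t : ℝ} (h0 : 2 / 25 ≤ t) (h1 : t ≤ 3 / 5) : 101 / 1250 ≤ g1 t := by
  rw [g1_eq (by linarith) (by linarith)]
  unfold P
  apply le_max_of_le_left
  exact le_min (by linarith) (le_min (by linarith) (by linarith))

theorem bot {t : ℝ} (h0 : 31 / 50 ≤ t) (h1 : t ≤ 1) : g1 t ≤ 0 := by
  rw [g1_eq (by linarith) h1]
  unfold P
  apply max_le
  · exact (min_le_right _ _).trans ((min_le_right _ _).trans (by linarith))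
  · linarith

/-- the numerical data -/
noncomputable def D : Dat where
  ρ := 101 / 100000
  B := 1000
  θ := 1 / 100
  G := 11 / 100
  lop := 9 / 10
  hip := 11 / 10
  lom := 18 / 5
  him := 22 / 5
  cs := 81 / 100
  es := 7 / 20
  Rp := fun n => if n = 0 then 1 / 25 else 9 / 50
  Rm := fun n => if n = 0 then 1 / 100 else 6 / 25
  rp := fun _ => 1 / 100
  rm := fun n => if n = 0 then 1 / 200 else 4 / 25

theorem D_ok : D.Ok where
  ρ0 := by norm_num [D]
  ρ1 := by norm_num [D]
  B1 := by norm_num [D]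
  lam := by norm_num [D]
  lop0 := by norm_num [D]
  lom0 := by norm_num [D]
  hip0 := by norm_num [D]
  him0 := by norm_num [D]
  rp0 := fun n => by norm_num [D]
  rm0 := fun n => by simp only [D]; split_ifs <;> norm_num
  Rp1 := fun n => by norm_num [D]
  Rm1 := fun n => by norm_num [D]
  wp := fun n => by simp only [D]; split_ifs <;> norm_num
  wm := fun n => by simp only [D]; split_ifs <;> norm_num
  selp := fun n => by norm_num [D]
  selm := fun n => by norm_num [D]

variable {h : ℝ → ℝ}

theorem fn_D (hper : Function.Periodic h 1) (h1 : ∀ x, |h x| ≤ 1 / 1000)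
    (h2 : ∀ x y, |h x - h y| ≤ 1 / 1000 * |x - y|) (hc : Continuous fun x => g1 x + h x) :
    D.Fn (fun x => g1 x + h x) where
  cont := hc
  per := fun x => by
    show g1 (x + 1) + h (x + 1) = g1 x + h x
    rw [g1_per, hper]
  bd := fun x => by
    have a := g1_bd x
    have b := abs_le.1 (h1 x)
    rw [abs_le]
    simp only [D]
    constructor <;> linarith [a.1, a.2, b.1, b.2]
  up := fun n t t' htt ht ht' => by
    simp only [D] at ht ht' ⊢
    norm_num at ht ht'
    rw [abs_le] at ht ht'
    have a := abs_le.1 (h2 t' t)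
    rw [abs_of_nonneg (by linarith)] at a
    rw [br4 (t := t) (by linarith) (by linarith), br4 (t := t') (by linarith) (by linarith)]
    constructor <;> linarith [a.1, a.2]
  down := fun n t t' htt ht ht' => by
    simp only [D] at ht ht' ⊢
    norm_num at ht ht'
    rw [abs_le] at ht ht'
    have a := abs_le.1 (h2 t' t)
    rw [abs_of_nonneg (by linarith)] at a
    rw [br2 (t := t) (by linarith) (by linarith), br2 (t := t') (by linarith) (by linarith)]
    constructor <;> linarith [a.1, a.2]

theorem inv_zero (h1 : ∀ x, |h x| ≤ 1 / 1000) (h2 : ∀ x y, |h x - h y| ≤ 1 / 1000 * |x - y|) :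
    Inv D (fun x => g1 x + h x) 0 (1 / 25, 61 / 100) := by
  refine ⟨slope_zero ?_, slope_zero ?_, ?_⟩
  · intro t t' htt ht ht'
    simp only [D] at ht ht' ⊢
    norm_num at ht ht'
    rw [abs_le] at ht ht'
    have a := abs_le.1 (h2 t' t)
    rw [abs_of_nonneg (by linarith)] at a
    rw [br1 (t := t) (by linarith) (by linarith), br1 (t := t') (by linarith) (by linarith)]
    constructor <;> linarith [a.1, a.2]
  · intro t t' htt ht ht'
    simp only [D] at ht ht' ⊢
    norm_num at ht ht'
    rw [abs_le] at ht ht'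
    have a := abs_le.1 (h2 t' t)
    rw [abs_of_nonneg (by linarith)] at a
    rw [br3 (t := t) (by linarith) (by linarith), br3 (t := t') (by linarith) (by linarith)]
    constructor <;> linarith [a.1, a.2]
  · have e : ∀ z, Phi D.ρ D.B (fun x => g1 x + h x) (0 + 1) z = g1 z + h z := by
      intro z
      simp [WC.Phi]
    rw [e, e, pow_zero, div_one, div_one]
    simp only
    rw [br1 (t := 1 / 25) (by norm_num) (by norm_num), br3 (t := 61 / 100) (by norm_num)
      (by norm_num)]
    have a := abs_le.1 (h1 (1 / 25))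
    have b := abs_le.1 (h1 (61 / 100))
    rw [abs_le]
    simp only [D]
    norm_num
    constructor <;> linarith [a.1, a.2, b.1, b.2]

/-- the exponent -/
noncomputable def al : ℝ := 1 - Real.log (101 / 100) / Real.log 1000

theorem al_pos : 0 < al := by
  unfold al
  have h1 : 0 < Real.log 1000 := Real.log_pos (by norm_num)
  have h2 : Real.log (101 / 100) < Real.log 1000 := Real.log_lt_log (by norm_num) (by norm_num)
  have : Real.log (101 / 100) / Real.log 1000 < 1 := by rw [div_lt_one h1]; exact h2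
  linarith

theorem al_lt : al < 1 := by
  unfold al
  have h1 : 0 < Real.log 1000 := Real.log_pos (by norm_num)
  have h2 : 0 < Real.log (101 / 100) := Real.log_pos (by norm_num)
  have : 0 < Real.log (101 / 100) / Real.log 1000 := div_pos h2 h1
  linarith

theorem sc_al : sc 1000 al = 101 / 100000 := by
  unfold sc al
  have h1 : Real.log 1000 ≠ 0 := (Real.log_pos (by norm_num)).ne'
  rw [show ((1000 : ℕ) : ℝ) = 1000 by norm_num, Real.rpow_def_of_pos (by norm_num)]
  have e : Real.log 1000 * -(1 - Real.log (101 / 100) / Real.log 1000)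
      = Real.log (101 / 100) - Real.log 1000 := by field_simp; ring
  rw [e, Real.exp_sub, Real.exp_log (by norm_num), Real.exp_log (by norm_num)]
  norm_num

theorem W_cont {g : ℝ → ℝ} (hg : Continuous g) {M : ℝ} (hM : ∀ x, |g x| ≤ M) :
    Continuous (W 1000 al g) := by
  have hs := sc_pos (b := 1000) (α := al) (by norm_num)
  have hs1 := sc_lt (b := 1000) (α := al) (by norm_num) al_pos
  have e : W 1000 al g = fun x => ∑' k : ℕ, sc 1000 al ^ k * g (((1000 : ℕ) : ℝ) ^ k * x) := by
    funext x; exact W_eq g x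
  rw [e]
  apply continuous_tsum (u := fun k => sc 1000 al ^ k * M)
  · intro k
    fun_prop
  · exact (summable_geometric_of_lt_one hs.le hs1).mul_right M
  · intro k x
    rw [Real.norm_eq_abs, abs_mul, abs_of_nonneg (pow_nonneg hs.le k)]
    exact mul_le_mul_of_nonneg_left (hM _) (pow_nonneg hs.le k)

/-- the main statement for one function -/
theorem two_points (hper : Function.Periodic h 1) (h1 : ∀ x, |h x| ≤ 1 / 1000)
    (h2 : ∀ x y, |h x - h y| ≤ 1 / 1000 * |x - y|) (hc : Continuous fun x => g1 x + h x) :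
    ∃ y ∈ interior (range (W 1000 al (fun x => g1 x + h x))),
      ∃ xp xm : ℝ, xp ≠ xm ∧ {x | x ∈ Ico (0:ℝ) 1 ∧ W 1000 al (fun x => g1 x + h x) x = y} = {xp, xm} := by
  set g : ℝ → ℝ := fun x => g1 x + h x with hg
  set w : ℝ → ℝ := W 1000 al g with hw
  have hFn : D.Fn g := fn_D hper h1 h2 hc
  have hb2 : (2 : ℕ) ≤ 1000 := by norm_num
  have hM : ∀ x, |g x| ≤ 11 / 100 := hFn.bd
  have hfun : ∀ x, w x = g x + 101 / 100000 * w (1000 * x) := by
    intro x
    have := W_fun (b := 1000) (α := al) hb2 al_pos hM x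
    rw [sc_al] at this
    simpa using this
  have hbd : ∀ x, |w x| ≤ 12 / 100 := by
    intro x
    have := W_bound (b := 1000) (α := al) hb2 al_pos hM x
    rw [sc_al] at this
    refine this.trans ?_
    norm_num
  have hO : ∀ x x', |w x - w x'| ≤ 12 / 100 := by
    intro x x'
    rw [hfun x, hfun x']
    have a := g1_bd x
    have b := g1_bd x'
    have c := abs_le.1 (h1 x)
    have d := abs_le.1 (h1 x')
    have e := abs_le.1 (hbd (1000 * x))
    have f := abs_le.1 (hbd (1000 * x'))
    rw [abs_le]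
    simp only [hg]
    constructor <;> linarith [a.1, a.2, b.1, b.2, c.1, c.2, d.1, d.2, e.1, e.2, f.1, f.2]
  have hwn : ∀ n x, w x = Phi D.ρ D.B g n x + D.ρ ^ n * w (D.B ^ n * x) := by
    intro n
    induction n with
    | zero => intro x; simp [WC.Phi]
    | succ n ih =>
      intro x
      rw [Phi_succ, ih x, hfun (D.B ^ n * x)]
      have e1 : D.ρ = 101 / 100000 := rfl
      have e2 : D.B = 1000 := rfl
      rw [e1, e2]
      have e3 : (1000 : ℝ) ^ (n + 1) * x = 1000 * (1000 ^ n * x) := by ring
      rw [e3]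
      ring
  have hwn' : ∀ n x, -w x = Phi D.ρ D.B (fun y => - g y) n x + D.ρ ^ n * -w (D.B ^ n * x) := by
    intro n x
    rw [Phi_neg, hwn n x]
    ring
  obtain ⟨c, e, xp, xm, hc0, he0, hSp, hSm, hxp, hxm, hval⟩ := exists_chains D D_ok hFn
    (fun n => by norm_num [D]) (fun n => by norm_num [D]) (fun n => by norm_num [D])
    (fun n => by simp only [D]; split_ifs <;> norm_num) (inv_zero h1 h2) hwn hO
  have strp : ∀ x x', x < x' → (x = xp ∨ x' = xp) → |x - 1 / 25| ≤ 1 / 25 → |x' - 1 / 25| ≤ 1 / 25 →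
      w x < w x' := by
    intro x x' hxx hor hx hx'
    have e1 : D.Rp 0 = 1 / 25 := by simp [D]
    refine strict (lo := D.lop) (hi := D.hip) (O := 12 / 100) (f := g) (c := c)
      (r := fun n => D.rp n + 1 / D.B) (R := D.Rp) D_ok.ρ0 D_ok.B1
      (by norm_num) (by norm_num [D]) hwn hO hSp ?_ ?_ hxp hxx hor ?_ ?_
    · intro n
      simp only [D]
      split_ifs <;> norm_num
    · intro n hn
      have : n ≠ 0 := by omega
      simp only [D, this, if_false]
      norm_num
    · rw [hc0, e1]; exact hx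
    · rw [hc0, e1]; exact hx'
  have strm : ∀ x x', x < x' → (x = xm ∨ x' = xm) → |x - 61 / 100| ≤ 1 / 100 →
      |x' - 61 / 100| ≤ 1 / 100 → w x' < w x := by
    intro x x' hxx hor hx hx'
    have e1 : D.Rm 0 = 1 / 100 := by simp [D]
    have := strict (lo := D.lom) (hi := D.him) (O := 12 / 100) (f := fun y => - g y)
      (w := fun x => - w x) (c := e)
      (r := fun n => D.rm n + 1 / D.B) (R := D.Rm) (xs := xm) D_ok.ρ0 D_ok.B1
      (by norm_num) (by norm_num [D]) hwn' (fun x x' => by
        have := hO x' x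
        have e2 : -w x - -w x' = w x' - w x := by ring
        rw [e2]; exact this) hSm ?_ ?_ hxm hxx hor ?_ ?_
    · linarith
    · intro n
      simp only [D]
      split_ifs <;> norm_num
    · intro n hn
      have : n ≠ 0 := by omega
      simp only [D, this, if_false]
      norm_num
    · rw [he0, e1]; exact hx
    · rw [he0, e1]; exact hx'
  have hxp0 := hxp 0
  have hxm0 := hxm 0
  rw [hc0] at hxp0
  rw [he0] at hxm0
  simp only [D, pow_zero, one_mul, if_true] at hxp0 hxm0
  rw [abs_le] at hxp0 hxm0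
  norm_num at hxp0 hxm0
  have hxpl : 29 / 1000 ≤ xp := by linarith [hxp0.1]
  have hxpu : xp ≤ 51 / 1000 := by linarith [hxp0.2]
  have hxml : 604 / 1000 ≤ xm := by linarith [hxm0.1]
  have hxmu : xm ≤ 616 / 1000 := by linarith [hxm0.2]
  -- the value
  have hy1 : 28 / 1000 ≤ w xp ∧ w xp ≤ 53 / 1000 := by
    rw [hfun xp]
    have a := abs_le.1 (h1 xp)
    have b := abs_le.1 (hbd (1000 * xp))
    have e1 : g xp = g1 xp + h xp := rfl
    rw [e1, br1 (by linarith) (by linarith)]
    constructor <;> linarith [a.1, a.2, b.1, b.2]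
  have htop : ∀ t, 2 / 25 ≤ t → t ≤ 3 / 5 → 79 / 1000 ≤ w t := by
    intro t ht0 ht1
    rw [hfun t]
    have a := abs_le.1 (h1 t)
    have b := abs_le.1 (hbd (1000 * t))
    have c := top ht0 ht1
    have e1 : g t = g1 t + h t := rfl
    rw [e1]
    linarith [a.1, a.2, b.1, b.2]
  have hbot : ∀ t, 31 / 50 ≤ t → t ≤ 1 → w t ≤ 2 / 1000 := by
    intro t ht0 ht1
    rw [hfun t]
    have a := abs_le.1 (h1 t)
    have b := abs_le.1 (hbd (1000 * t))
    have c := bot ht0 ht1
    have e1 : g t = g1 t + h t := rfl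
    rw [e1]
    linarith [a.1, a.2, b.1, b.2]
  refine ⟨w xp, ?_, xp, xm, by intro hh; linarith, ?_⟩
  · rw [mem_interior]
    refine ⟨Ioo (w (4 / 5)) (w (1 / 2)), ?_, isOpen_Ioo, ?_⟩
    · intro z hz
      exact intermediate_value_univ _ _ (W_cont hc hM) ⟨hz.1.le, hz.2.le⟩
    · have a := hbot (4 / 5) (by norm_num) (by norm_num)
      have b := htop (1 / 2) (by norm_num) (by norm_num)
      exact ⟨by linarith [hy1.1], by linarith [hy1.2]⟩
  · ext x
    simp only [mem_ofPred_eq, mem_insert_iff, mem_singleton_iff]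
    constructor
    · rintro ⟨⟨hx0, hx1⟩, hx⟩
      rcases le_or_gt x (2 / 25) with c1 | c1
      · left
        by_contra hne
        rcases lt_or_gt_of_ne hne with hlt | hlt
        · exact absurd hx (strp x xp hlt (Or.inr rfl) (by rw [abs_le]; constructor <;> linarith)
            (by rw [abs_le]; constructor <;> linarith)).ne
        · exact absurd hx (strp xp x hlt (Or.inl rfl) (by rw [abs_le]; constructor <;> linarith)
            (by rw [abs_le]; constructor <;> linarith)).ne'
      rcases le_or_gt x (3 / 5) with c2 | c2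
      · have := htop x c1.le c2
        linarith [hy1.2]
      rcases le_or_gt x (31 / 50) with c3 | c3
      · right
        by_contra hne
        rw [hval] at hx
        rcases lt_or_gt_of_ne hne with hlt | hlt
        · exact absurd hx (strm x xm hlt (Or.inr rfl) (by rw [abs_le]; constructor <;> linarith)
            (by rw [abs_le]; constructor <;> linarith)).ne'
        · exact absurd hx (strm xm x hlt (Or.inl rfl) (by rw [abs_le]; constructor <;> linarith)
            (by rw [abs_le]; constructor <;> linarith)).ne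
      · have := hbot x c3.le hx1.le
        linarith [hy1.1]
    · rintro (hx | hx)
      · rw [hx]
        exact ⟨⟨by linarith, by linarith⟩, rfl⟩
      · rw [hx]
        exact ⟨⟨by linarith, by linarith⟩, hval.symm⟩

/-- a ball of functions with a two point interior level set -/
theorem ball_two : ∃ (g₀ : LS) (ε : ℝ), 0 < ε ∧ ∀ g ∈ Metric.ball g₀ ε,
    ∃ y ∈ interior (range (W 1000 al g.fn)), ∃ xp xm : ℝ, xp ≠ xm ∧
      {x | x ∈ Ico (0:ℝ) 1 ∧ W 1000 al g.fn x = y} = {xp, xm} := by
  refine ⟨LS.mk g1 g1_lipPer, 1 / 1000, by norm_num, ?_⟩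
  intro g hg
  rw [Metric.mem_ball, dist_eq_norm] at hg
  set h : ℝ → ℝ := (g - LS.mk g1 g1_lipPer).fn with hh
  have hnorm : supN h + lipN h < 1 / 1000 := hg
  have h1 : ∀ x, |h x| ≤ 1 / 1000 := fun x => by
    have := le_supN (g - LS.mk g1 g1_lipPer).lipPer x
    have h2 := lipN_nonneg h
    rw [← hh] at this
    linarith
  have h2 : ∀ x y, |h x - h y| ≤ 1 / 1000 * |x - y| := fun x y => by
    have := le_lipN (g - LS.mk g1 g1_lipPer).lipPer x y
    rw [← hh] at this
    have h3 := supN_nonneg h
    exact this.trans (mul_le_mul_of_nonneg_right (by linarith) (abs_nonneg _))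
  have hgf : g.fn = fun x => g1 x + h x := by
    funext x
    rw [hh, LS.sub_fn, LS.mk_fn]
    ring
  have hcont : Continuous fun x => g1 x + h x := by
    rw [← hgf]; exact g.lipPer.continuous
  rw [hgf]
  exact two_points (g - LS.mk g1 g1_lipPer).lipPer.1 h1 h2 hcont

end Pool.Agent.R266.WT
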